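import Mathlib

set_option autoImplicit false

namespace Pool.Agent.Lib.Helper33

/-- Kernel friendly bounded universal quantifier. -/
def allLt (n : ℕ) (p : ℕ → Bool) : Bool :=
  Nat.rec true (fun k ih => p k && ih) n

/-- Kernel friendly bounded existential quantifier. -/
def anyLt (n : ℕ) (p : ℕ → Bool) : Bool :=
  Nat.rec false (fun k ih => p k || ih) n

/-- Kernel friendly bounded sum. -/
def sumLt (n : ℕ) (f : ℕ → ℕ) : ℕ :=
  Nat.rec 0 (fun k ih => f k + ih) n

theorem allLt_iff (n : ℕ) (p : ℕ → Bool) : allLt n p = true ↔ ∀ k, k < n → p k = true := by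
  induction n with
  | zero => simp [allLt]
  | succ n ih =>
    have : allLt (n + 1) p = (p n && allLt n p) := rfl
    rw [this, Bool.and_eq_true, ih]
    constructor
    · rintro ⟨h1, h2⟩ k hk
      rcases Nat.lt_succ_iff_lt_or_eq.mp hk with h | rfl
      · exact h2 k h
      · exact h1
    · intro h
      exact ⟨h n (Nat.lt_succ_self n), fun k hk => h k (Nat.lt_succ_of_lt hk)⟩

theorem anyLt_iff (n : ℕ) (p : ℕ → Bool) : anyLt n p = true ↔ ∃ k, k < n ∧ p k = true := by
  induction n with
  | zero => simp [anyLt]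
  | succ n ih =>
    have : anyLt (n + 1) p = (p n || anyLt n p) := rfl
    rw [this, Bool.or_eq_true, ih]
    constructor
    · rintro (h | ⟨k, hk, h⟩)
      · exact ⟨n, Nat.lt_succ_self n, h⟩
      · exact ⟨k, Nat.lt_succ_of_lt hk, h⟩
    · rintro ⟨k, hk, h⟩
      rcases Nat.lt_succ_iff_lt_or_eq.mp hk with h' | rfl
      · exact Or.inr ⟨k, h', h⟩
      · exact Or.inl h

theorem sumLt_eq (n : ℕ) (f : ℕ → ℕ) : sumLt n f = ∑ k ∈ Finset.range n, f k := by
  induction n with
  | zero => simp [sumLt]
  | succ n ih =>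
    have : sumLt (n + 1) f = f n + sumLt n f := rfl
    rw [this, ih, Finset.sum_range_succ, add_comm]

end Pool.Agent.Lib.Helper33
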