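import Mathlib
import Pool.Agent.Lib.Helper33.Chk

set_option autoImplicit false

namespace Pool.Agent.Lib.Helper33

/-- Depth first search: is there a walk with `fuel` further edges from `cur` to `s` whose
later vertices are distinct and outside `mask`. -/
def extP (nb : ℕ → List ℕ) (s : ℕ) (fuel : ℕ) : ℕ → ℕ → Bool :=
  Nat.rec (fun cur _ => Nat.beq cur s)
    (fun f ih cur mask => (nb cur).any (fun w =>
      !(mask.testBit w) && (Nat.beq f 0 || !(Nat.beq w s)) && ih w (mask ||| 2 ^ w))) fuel

theorem extP_of_walk {n : ℕ} (G : SimpleGraph (Fin n)) (nb : ℕ → List ℕ)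
    (hnb : ∀ u v : Fin n, G.Adj u v → v.val ∈ nb u.val) {a b : Fin n} (p : G.Walk a b) :
    ∀ mask : ℕ, p.support.tail.Nodup → (∀ x ∈ p.support.tail, mask.testBit x.val = false) →
      extP nb b.val p.length a.val mask = true := by
  induction p with
  | nil => intro mask _ _; simp [extP]
  | @cons a w b h q ih =>
    intro mask hnd hm
    have e : extP nb b.val (q.length + 1) a.val mask = (nb a.val).any (fun w =>
      !(mask.testBit w) && (Nat.beq q.length 0 || !(Nat.beq w b.val)) &&
        extP nb b.val q.length w (mask ||| 2 ^ w)) := rfl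
    rw [SimpleGraph.Walk.length_cons, e, List.any_eq_true]
    rw [SimpleGraph.Walk.support_cons, List.tail_cons] at hnd hm
    refine ⟨w.val, hnb _ _ h, ?_⟩
    have hw : mask.testBit w.val = false := hm w q.start_mem_support
    have hnd' := hnd
    rw [← q.cons_tail_support, List.nodup_cons] at hnd'
    have h2 : (Nat.beq q.length 0 || !(Nat.beq w.val b.val)) = true := by
      by_cases hwb : w = b
      · subst hwb
        have hp : q.IsPath := (SimpleGraph.Walk.isPath_def q).mpr hnd
        rw [SimpleGraph.Walk.isPath_iff_nil] at hp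
        have := hp.eq_nil
        subst this
        simp
      · have : Nat.beq w.val b.val = false := by
          rw [Bool.eq_false_iff]
          intro h3
          exact hwb (Fin.ext (Nat.eq_of_beq_eq_true h3))
        simp [this]
    have h3 : extP nb b.val q.length w.val (mask ||| 2 ^ w.val) = true := by
      apply ih _ hnd'.2
      intro x hx
      have hxw : w.val ≠ x.val := by
        intro hxw
        have hxw' : x = w := Fin.ext hxw.symm
        exact hnd'.1 (hxw' ▸ hx)
      rw [Nat.testBit_or, hm x (List.mem_of_mem_tail hx), Nat.testBit_two_pow_of_ne hxw]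
      rfl
    simp [hw, h2, h3]

/-- If the search fails from every start, there is no cycle of length `L`. -/
theorem no_cycle_of_chk {n : ℕ} (G : SimpleGraph (Fin n)) (nb : ℕ → List ℕ)
    (hnb : ∀ u v : Fin n, G.Adj u v → v.val ∈ nb u.val) (L : ℕ)
    (hchk : allLt n (fun s => !(extP nb s L s 0)) = true) :
    ¬ ∃ (v : Fin n) (c : G.Walk v v), c.IsCycle ∧ c.length = L := by
  rintro ⟨v, c, hc, hL⟩
  have h1 := extP_of_walk G nb hnb c 0 hc.support_nodup (by simp)
  have h2 := (allLt_iff _ _).mp hchk v.val v.isLt
  rw [hL] at h1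
  simp [h1] at h2

/-- The search only has to start from the least vertex of the cycle. -/
theorem no_cycle_of_chk_min {n : ℕ} (G : SimpleGraph (Fin n)) (nb : ℕ → List ℕ)
    (hnb : ∀ u v : Fin n, G.Adj u v → v.val ∈ nb u.val) (L : ℕ)
    (hchk : ∀ s, s < n → extP nb s L s (2 ^ s - 1) = false) :
    ¬ ∃ (v : Fin n) (c : G.Walk v v), c.IsCycle ∧ c.length = L := by
  classical
  rintro ⟨v, c, hc, hL⟩
  obtain ⟨u, hu, hmin⟩ := Finset.exists_min_image c.support.toFinset (fun x => x.val)
    ⟨v, by simp⟩
  have hu' : u ∈ c.support := List.mem_toFinset.mp hu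
  have hc' : (c.rotate u hu').IsCycle := hc.rotate hu'
  have hl' : (c.rotate u hu').length = L := by
    rw [← hL]; simp
  have h1 := extP_of_walk G nb hnb (c.rotate u hu') (2 ^ u.val - 1) hc'.support_nodup (by
    intro x hx
    have hx1 : x ∈ c.support.tail := (SimpleGraph.Walk.support_rotate c u hu').mem_iff.mp hx
    have hx2 := hmin x (List.mem_toFinset.mpr (List.mem_of_mem_tail hx1))
    rw [Nat.testBit_two_pow_sub_one]
    simpa using hx2)
  rw [hl', hchk u.val u.isLt] at h1
  exact absurd h1 (by simp)

/-- A closed chain of adjacent vertices without repetition gives a cycle. -/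
theorem exists_cycle_of_list {V : Type} [DecidableEq V] (G : SimpleGraph V) (v : V) (l : List V)
    (hch : (v :: (l ++ [v])).IsChain G.Adj) (hnd : (l ++ [v]).Nodup) (hl : 2 ≤ l.length) :
    ∃ c : G.Walk v v, c.IsCycle ∧ c.length = l.length + 1 ∧ c.support = v :: (l ++ [v]) := by
  have hne : (v :: (l ++ [v])) ≠ [] := by simp
  let c0 := SimpleGraph.Walk.ofSupport (G := G) (v :: (l ++ [v])) hne hch
  have hs0 : c0.support = v :: (l ++ [v]) := SimpleGraph.Walk.support_ofSupport _ _
  let c : G.Walk v v := c0.copy (by simp) (by simp)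
  have hs : c.support = v :: (l ++ [v]) :=
    (SimpleGraph.Walk.support_copy _ _ _).trans hs0
  have hlen : c.length = l.length + 1 := by
    have := c.length_support
    rw [hs] at this
    simp at this
    omega
  refine ⟨c, ?_, hlen, hs⟩
  rw [SimpleGraph.Walk.isCycle_iff_isPath_tail_and_le_length]
  refine ⟨?_, by omega⟩
  rw [SimpleGraph.Walk.isPath_def, SimpleGraph.Walk.support_tail_of_not_nil, hs]
  · simpa using hnd
  · intro hn
    rw [← SimpleGraph.Walk.length_eq_zero_iff] at hn
    omega

end Pool.Agent.Lib.Helper33
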