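import Pool.Agent.Lib.Helper33.Lfp

set_option autoImplicit false
open Pool.Agent.Lib.Helper33.Lfp

namespace Pool.Agent.Lib.Helper33.DetReach

/-- States: 0, 2 belong to player one, 1, 3 to player two, 4 to 9 are matrix games, 10 and 11 are
the two targets, 12 is a sink. -/
def nx (s : Fin 13) (a b : Fin 3) : Fin 13 :=
  match s.val with
  | 0 => if a = 0 then 4 else 1
  | 1 => if b = 0 then 5 else 0
  | 2 => if a = 0 then 7 else 0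
  | 3 => if b = 0 then 6 else 0
  | 4 => if a = b then 8 else 3
  | 5 => if a = b then 9 else 2
  | 6 => if a = b then 11 else 10
  | 7 => if a = b then 10 else 11
  | 8 => if a = b then 6 else if a = b + 1 then 11 else 12
  | 9 => if a = b then 7 else if b = a + 1 then 10 else 12
  | 10 => 10
  | 11 => 11
  | _ => 12

def mt (p q : Fin 3 → ℝ) : ℝ := p 0 * q 0 + p 1 * q 1 + p 2 * q 2
def sh (p q : Fin 3 → ℝ) : ℝ := p 1 * q 0 + p 2 * q 1 + p 0 * q 2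

def Sx (σ : Fin 13 → Fin 3 → ℝ) : Prop := (∀ s a, 0 ≤ σ s a) ∧ ∀ s, ∑ a, σ s a = 1

noncomputable def F (σ τ : Fin 13 → Fin 3 → ℝ) (v : Fin 13 → ℝ) (x : Fin 13) : ℝ :=
  ∑ a, ∑ b, σ x a * τ x b * v (nx x a b)

noncomputable def G (T : Set (Fin 13)) (σ τ : Fin 13 → Fin 3 → ℝ) (v : Fin 13 → ℝ) :
    Fin 13 → ℝ :=
  T.indicator (fun _ => (1 : ℝ)) + Tᶜ.indicator (F σ τ v)

noncomputable def val (σ τ : Fin 13 → Fin 3 → ℝ) (T : Set (Fin 13)) (s : Fin 13) : ℝ :=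
  ⨆ n : ℕ, (G T σ τ)^[n] (T.indicator (fun _ => (1 : ℝ))) s

lemma Sx.e {σ : Fin 13 → Fin 3 → ℝ} (h : Sx σ) (s : Fin 13) : σ s 2 = 1 - σ s 0 - σ s 1 := by
  have := h.2 s; rw [Fin.sum_univ_three] at this; linarith

lemma step {σ τ : Fin 13 → Fin 3 → ℝ} (hσ : Sx σ) (hτ : Sx τ) (v : Fin 13 → ℝ) :
    F σ τ v 0 = σ 0 0 * v 4 + (1 - σ 0 0) * v 1 ∧
    F σ τ v 1 = τ 1 0 * v 5 + (1 - τ 1 0) * v 0 ∧
    F σ τ v 2 = σ 2 0 * v 7 + (1 - σ 2 0) * v 0 ∧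
    F σ τ v 3 = τ 3 0 * v 6 + (1 - τ 3 0) * v 0 ∧
    F σ τ v 4 = mt (σ 4) (τ 4) * v 8 + (1 - mt (σ 4) (τ 4)) * v 3 ∧
    F σ τ v 5 = mt (σ 5) (τ 5) * v 9 + (1 - mt (σ 5) (τ 5)) * v 2 ∧
    F σ τ v 6 = mt (σ 6) (τ 6) * v 11 + (1 - mt (σ 6) (τ 6)) * v 10 ∧
    F σ τ v 7 = mt (σ 7) (τ 7) * v 10 + (1 - mt (σ 7) (τ 7)) * v 11 ∧
    F σ τ v 8 = mt (σ 8) (τ 8) * v 6 + sh (σ 8) (τ 8) * v 11 +
      (1 - mt (σ 8) (τ 8) - sh (σ 8) (τ 8)) * v 12 ∧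
    F σ τ v 9 = mt (τ 9) (σ 9) * v 7 + sh (τ 9) (σ 9) * v 10 +
      (1 - mt (τ 9) (σ 9) - sh (τ 9) (σ 9)) * v 12 ∧
    F σ τ v 10 = v 10 ∧ F σ τ v 11 = v 11 ∧ F σ τ v 12 = v 12 := by
  refine ⟨?_, ?_, ?_, ?_, ?_, ?_, ?_, ?_, ?_, ?_, ?_, ?_, ?_⟩ <;>
    simp [F, nx, mt, sh, Fin.sum_univ_three, hσ.e, hτ.e] <;> ring

lemma reach' {σ τ : Fin 13 → Fin 3 → ℝ} (hσ : Sx σ) (hτ : Sx τ) (T : Set (Fin 13)) :
    (∀ s ∈ T, val σ τ T s = 1) ∧ (∀ s, s ∉ T → val σ τ T s = F σ τ (val σ τ T) s) ∧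
      (∀ s, 0 ≤ val σ τ T s) ∧ (∀ s, val σ τ T s ≤ 1) ∧
      ∀ y : Fin 13 → ℝ, (∀ s, 0 ≤ y s) → (∀ s ∈ T, 1 ≤ y s) →
        (∀ s, s ∉ T → F σ τ y s ≤ y s) → ∀ s, val σ τ T s ≤ y s := by
  have g1 : ∀ v s, s ∈ T → G T σ τ v s = 1 := fun v s h => by simp [G, h]
  have g2 : ∀ v s, s ∉ T → G T σ τ v s = F σ τ v s := fun v s h => by simp [G, h]
  have fm : ∀ x y : Fin 13 → ℝ, x ≤ y → ∀ s, F σ τ x s ≤ F σ τ y s := fun x y hxy s =>
    Finset.sum_le_sum fun a _ => Finset.sum_le_sum fun b _ =>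
      mul_le_mul_of_nonneg_left (hxy _) (mul_nonneg (hσ.1 s a) (hτ.1 s b))
  have fc : ∀ c : ℝ, ∀ s, F σ τ (fun _ => c) s = c := fun c s => by
    simp only [F, ← Finset.sum_mul, ← Finset.mul_sum, hσ.2 s, hτ.2 s, mul_one, one_mul]
  have hm : Monotone (G T σ τ) := fun x y hxy s => by
    by_cases h : s ∈ T
    · rw [g1 x s h, g1 y s h]
    · rw [g2 x s h, g2 y s h]; exact fm x y hxy s
  have hc : Continuous (G T σ τ) := continuous_pi fun s => by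
    by_cases h : s ∈ T
    · simp only [g1 _ s h]; exact continuous_const
    · simp only [g2 _ s h, F]; fun_prop
  have i0 : ∀ s, 0 ≤ T.indicator (fun _ => (1 : ℝ)) s := fun s =>
    Set.indicator_nonneg (fun _ _ => zero_le_one) s
  obtain ⟨h1, h2, h3, h4⟩ := lfp (G T σ τ) hm hc (T.indicator (fun _ => (1 : ℝ))) (fun s => by
      by_cases h : s ∈ T
      · rw [g1 _ s h]; simp [h]
      · rw [g2 _ s h, Set.indicator_of_notMem h]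
        exact (fc 0 s).ge.trans (fm _ _ i0 s))
    (fun s => by by_cases h : s ∈ T <;> simp [h]) (fun s => by
      by_cases h : s ∈ T
      · rw [g1 _ s h]; rfl
      · rw [g2 _ s h]; exact (fc 1 s).le) (val σ τ T) fun _ => rfl
  refine ⟨fun s h => ?_, fun s h => ?_, fun s => (i0 s).trans (h2 s), h3,
    fun y hy hT hN => h4 y (fun s => ?_) fun s => ?_⟩
  · rw [← h1, g1 _ s h]
  · conv_lhs => rw [← h1, g2 _ s h]
  · by_cases h : s ∈ T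
    · rw [Set.indicator_of_mem h]; exact hT s h
    · rw [Set.indicator_of_notMem h]; exact hy s
  · by_cases h : s ∈ T
    · rw [g1 _ s h]; exact hT s h
    · rw [g2 _ s h]; exact hN s h

lemma bd {σ τ : Fin 13 → Fin 3 → ℝ} (hσ : Sx σ) (hτ : Sx τ) (s : Fin 13) :
    σ s 0 ≤ 1 ∧ 0 ≤ mt (σ s) (τ s) ∧ 0 ≤ sh (σ s) (τ s) ∧ mt (σ s) (τ s) ≤ 1 := by
  have a0 := hσ.1 s 0
  have a1 := hσ.1 s 1
  have a2 := hσ.1 s 2
  have b0 := hτ.1 s 0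
  have b1 := hτ.1 s 1
  have b2 := hτ.1 s 2
  have ea := hσ.e s
  have eb := hτ.e s
  refine ⟨by linarith, by unfold mt; positivity, by unfold sh; positivity, ?_⟩
  unfold mt
  nlinarith [mul_nonneg a0 b1, mul_nonneg a0 b2, mul_nonneg a1 b0, mul_nonneg a1 b2,
    mul_nonneg a2 b0, mul_nonneg a2 b1]

/-- the equations satisfied by the reachability probabilities -/
def Eqs (σ τ : Fin 13 → Fin 3 → ℝ) (w1 w2 : ℝ) (V : Fin 13 → ℝ) : Prop :=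
    V 0 = σ 0 0 * V 4 + (1 - σ 0 0) * V 1 ∧
    V 1 = τ 1 0 * V 5 + (1 - τ 1 0) * V 0 ∧
    V 2 = σ 2 0 * V 7 + (1 - σ 2 0) * V 0 ∧
    V 3 = τ 3 0 * V 6 + (1 - τ 3 0) * V 0 ∧
    V 4 = mt (σ 4) (τ 4) * V 8 + (1 - mt (σ 4) (τ 4)) * V 3 ∧
    V 5 = mt (σ 5) (τ 5) * V 9 + (1 - mt (σ 5) (τ 5)) * V 2 ∧
    V 6 = mt (σ 6) (τ 6) * w2 + (1 - mt (σ 6) (τ 6)) * w1 ∧
    V 7 = mt (σ 7) (τ 7) * w1 + (1 - mt (σ 7) (τ 7)) * w2 ∧
    V 8 = mt (σ 8) (τ 8) * V 6 + sh (σ 8) (τ 8) * w2 ∧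
    V 9 = mt (τ 9) (σ 9) * V 7 + sh (τ 9) (σ 9) * w1 ∧
    (∀ s, 0 ≤ V s) ∧
    (σ 0 0 * mt (σ 4) (τ 4) = 0 → σ 0 0 * (1 - mt (σ 4) (τ 4)) * τ 3 0 = 0 →
      (1 - σ 0 0) * τ 1 0 * mt (σ 5) (τ 5) = 0 →
      (1 - σ 0 0) * τ 1 0 * (1 - mt (σ 5) (τ 5)) * σ 2 0 = 0 → V 0 ≤ 0)

lemma facts {σ τ : Fin 13 → Fin 3 → ℝ} (hσ : Sx σ) (hτ : Sx τ) (t : Fin 13)
    (ht : t = 10 ∨ t = 11) :
    Eqs σ τ (if t = 10 then 1 else 0) (if t = 10 then 0 else 1) (val σ τ {t}) := by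
  obtain ⟨r1, r2, r3, r4, r5⟩ := reach' hσ hτ {t}
  have fc : ∀ (y : Fin 13 → ℝ) s, (∀ s, y s ≤ 1) → F σ τ y s ≤ 1 := fun y s hy => by
    calc F σ τ y s ≤ ∑ a, ∑ b, σ s a * τ s b * 1 :=
          Finset.sum_le_sum fun a _ => Finset.sum_le_sum fun b _ =>
            mul_le_mul_of_nonneg_left (hy _) (mul_nonneg (hσ.1 s a) (hτ.1 s b))
      _ = 1 := by simp only [mul_one, ← Finset.mul_sum, hσ.2 s, hτ.2 s]
  have z : ∀ u : Fin 13, u ≠ t → (∀ v, F σ τ v u = v u) → val σ τ {t} u = 0 := by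
    intro u hu hF
    refine le_antisymm ((r5 (fun s => if s = u then 0 else 1) (fun s => ?_) (fun s hs => ?_)
      (fun s _ => ?_) u).trans (by simp)) (r3 u)
    · split_ifs <;> norm_num
    · rw [Set.mem_singleton_iff] at hs
      rw [if_neg (by rw [hs]; exact hu.symm)]
    · by_cases h : s = u
      · rw [h, hF]
      · simp only [if_neg h]
        exact fc _ s fun s => by split_ifs <;> norm_num
  have n : ∀ s : Fin 13, s ≠ 10 → s ≠ 11 → s ∉ ({t} : Set (Fin 13)) := fun s a b h => by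
    rw [Set.mem_singleton_iff] at h
    rcases ht with rfl | rfl
    · exact a h
    · exact b h
  have v12 : val σ τ {t} 12 = 0 := z 12 (by rcases ht with rfl | rfl <;> decide)
    fun v => (step hσ hτ v).2.2.2.2.2.2.2.2.2.2.2.2
  have v10 : val σ τ {t} 10 = if t = 10 then 1 else 0 := by
    rcases ht with rfl | rfl
    · exact r1 _ rfl
    · exact z 10 (by decide) fun v => (step hσ hτ v).2.2.2.2.2.2.2.2.2.2.1
  have v11 : val σ τ {t} 11 = if t = 10 then 0 else 1 := by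
    rcases ht with rfl | rfl
    · exact z 11 (by decide) fun v => (step hσ hτ v).2.2.2.2.2.2.2.2.2.2.2.1
    · exact r1 _ rfl
  obtain ⟨a0, a1, a2, a3, a4, a5, a6, a7, a8, a9, -, -, -⟩ := step hσ hτ (val σ τ {t})
  have b6 := (r2 6 (n 6 (by decide) (by decide))).trans a6
  have b7 := (r2 7 (n 7 (by decide) (by decide))).trans a7
  have b8 := (r2 8 (n 8 (by decide) (by decide))).trans a8
  have b9 := (r2 9 (n 9 (by decide) (by decide))).trans a9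
  refine ⟨(r2 0 (n 0 (by decide) (by decide))).trans a0,
    (r2 1 (n 1 (by decide) (by decide))).trans a1,
    (r2 2 (n 2 (by decide) (by decide))).trans a2,
    (r2 3 (n 3 (by decide) (by decide))).trans a3,
    (r2 4 (n 4 (by decide) (by decide))).trans a4,
    (r2 5 (n 5 (by decide) (by decide))).trans a5, by rw [b6, v10, v11], by rw [b7, v10, v11],
    by rw [b8, v11, v12]; ring, by rw [b9, v10, v12]; ring, r3, fun c1 c2 c3 c4 => ?_⟩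
  set V := val σ τ {t} with hV
  have p0 := (bd hσ hτ 4).2.1
  have p1 := sub_nonneg.2 (bd hσ hτ 4).2.2.2
  have q0 := (bd hσ hτ 5).2.1
  have q1 := sub_nonneg.2 (bd hσ hτ 5).2.2.2
  have y2 := mul_nonneg (hσ.1 2 0) (r3 7)
  have y3 := mul_nonneg (hτ.1 3 0) (r3 6)
  have y4 := add_nonneg (mul_nonneg p0 (r3 8)) (mul_nonneg p1 y3)
  have y5 := add_nonneg (mul_nonneg q0 (r3 9)) (mul_nonneg q1 y2)
  let y : Fin 13 → ℝ := ![0,
    τ 1 0 * (mt (σ 5) (τ 5) * V 9 + (1 - mt (σ 5) (τ 5)) * (σ 2 0 * V 7)), σ 2 0 * V 7,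
    τ 3 0 * V 6, mt (σ 4) (τ 4) * V 8 + (1 - mt (σ 4) (τ 4)) * (τ 3 0 * V 6),
    mt (σ 5) (τ 5) * V 9 + (1 - mt (σ 5) (τ 5)) * (σ 2 0 * V 7), V 6, V 7, V 8, V 9, V 10, V 11,
    V 12]
  obtain ⟨d0, d1, d2, d3, d4, d5, d6, d7, d8, d9, d10, d11, d12⟩ := step hσ hτ y
  refine r5 y (fun s => ?_) (fun s hs => ?_) (fun s _ => ?_) 0
  · fin_cases s
    exacts [le_rfl, mul_nonneg (hτ.1 1 0) y5, y2, y3, y4, y5, r3 6, r3 7, r3 8, r3 9, r3 10,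
      r3 11, r3 12]
  · have := r1 s hs
    rw [Set.mem_singleton_iff] at hs
    rcases ht with rfl | rfl <;> subst hs <;> exact this.ge
  · fin_cases s
    · refine d0.trans_le (le_of_eq ?_)
      change σ 0 0 * (mt (σ 4) (τ 4) * V 8 + (1 - mt (σ 4) (τ 4)) * (τ 3 0 * V 6)) +
        (1 - σ 0 0) * (τ 1 0 * (mt (σ 5) (τ 5) * V 9 + (1 - mt (σ 5) (τ 5)) * (σ 2 0 * V 7))) = 0
      linear_combination V 8 * c1 + V 6 * c2 + V 9 * c3 + V 7 * c4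
    · exact d1.trans_le (le_of_eq (by simp [y]))
    · exact d2.trans_le (le_of_eq (by simp [y]))
    · exact d3.trans_le (le_of_eq (by simp [y]))
    · exact d4.le
    · exact d5.le
    · exact d6.trans_le b6.ge
    · exact d7.trans_le b7.ge
    · exact d8.trans_le b8.ge
    · exact d9.trans_le b9.ge
    · exact d10.le
    · exact d11.le
    · exact d12.le

lemma shap0 (p0 p1 p2 q0 q1 q2 η : ℝ) (hη : 0 < η) (hη' : η ≤ 1 / 100) (a0 : 0 ≤ p0)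
    (a1 : 0 ≤ p1) (a2 : 0 ≤ p2) (b0 : 0 ≤ q0) (b1 : 0 ≤ q1) (b2 : 0 ≤ q2)
    (ea : p0 + p1 + p2 = 1) (eb : q0 + q1 + q2 = 1) (m1 : q1 ≤ q0) (m2 : q2 ≤ q0)
    (h : q0 ≤ p0 * q0 + p1 * q1 + p2 * q2 + η)
    (g0 : p0 / 3 + p1 ≤ (p0 * q0 + p1 * q1 + p2 * q2) / 3 + (p1 * q0 + p2 * q1 + p0 * q2) + η)
    (g1 : p1 / 3 + p2 ≤ (p0 * q0 + p1 * q1 + p2 * q2) / 3 + (p1 * q0 + p2 * q1 + p0 * q2) + η)
    (g2 : p2 / 3 + p0 ≤ (p0 * q0 + p1 * q1 + p2 * q2) / 3 + (p1 * q0 + p2 * q1 + p0 * q2) + η) :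
    q0 ≤ 1 / 3 + 4 * η := by
  set K := (p0 * q0 + p1 * q1 + p2 * q2) / 3 + (p1 * q0 + p2 * q1 + p0 * q2) + η with hK
  have k0 := mul_nonneg b0 (sub_nonneg.2 g0)
  have k1 := mul_nonneg b1 (sub_nonneg.2 g1)
  have k2 := mul_nonneg b2 (sub_nonneg.2 g2)
  have ks : q0 * (K - (p0 / 3 + p1)) + q1 * (K - (p1 / 3 + p2)) + q2 * (K - (p2 / 3 + p0)) = η := by
    rw [hK]; linear_combination (K) * eb
  have l1 := mul_nonneg a1 (sub_nonneg.2 m1)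
  have l2 := mul_nonneg a2 (sub_nonneg.2 m2)
  have ls : p1 * (q0 - q1) + p2 * (q0 - q2) ≤ η := by
    have : p1 * (q0 - q1) + p2 * (q0 - q2) = q0 - (p0 * q0 + p1 * q1 + p2 * q2) := by
      linear_combination q0 * ea
    linarith
  have c0 : 1 / 3 ≤ q0 := by linarith
  have e0 : K - (p0 / 3 + p1) ≤ 3 * η := by nlinarith [sub_nonneg.2 g0]
  have f1 : 1 / 5 ≤ p1 := by linarith
  have c1 : q0 - q1 ≤ 5 * η := by nlinarith [sub_nonneg.2 m1]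
  have e1 : K - (p1 / 3 + p2) ≤ 4 * η := by nlinarith [sub_nonneg.2 g1]
  have f2 : 1 / 5 ≤ p2 := by linarith
  have c2 : q0 - q2 ≤ 5 * η := by nlinarith [sub_nonneg.2 m2]
  linarith

lemma shap {σ τ : Fin 13 → Fin 3 → ℝ} (hσ : Sx σ) (hτ : Sx τ) (s : Fin 13) (η : ℝ) (hη : 0 < η)
    (hη' : η ≤ 1 / 100) (h : ∀ i, τ s i ≤ mt (σ s) (τ s) + η)
    (g : ∀ j, σ s j / 3 + σ s (j + 1) ≤ mt (σ s) (τ s) / 3 + sh (σ s) (τ s) + η) :
    mt (σ s) (τ s) ≤ 1 / 3 + 4 * η ∧ sh (σ s) (τ s) ≤ 1 / 3 + 4 * η := by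
  have a0 := hσ.1 s 0
  have a1 := hσ.1 s 1
  have a2 := hσ.1 s 2
  have b0 := hτ.1 s 0
  have b1 := hτ.1 s 1
  have b2 := hτ.1 s 2
  have ea := hσ.e s
  have eb := hτ.e s
  have h0 := h 0
  have h1 := h 1
  have h2 := h 2
  have g0 : σ s 0 / 3 + σ s 1 ≤ _ := g 0
  have g1 : σ s 1 / 3 + σ s 2 ≤ _ := g 1
  have g2 : σ s 2 / 3 + σ s 0 ≤ _ := g 2
  unfold mt sh at *
  have key : τ s 0 ≤ 1 / 3 + 4 * η ∧ τ s 1 ≤ 1 / 3 + 4 * η ∧ τ s 2 ≤ 1 / 3 + 4 * η := by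
    have t0 := fun m1 m2 => shap0 _ _ _ _ _ _ η hη hη' a0 a1 a2 b0 b1 b2 (by linarith)
      (by linarith) m1 m2 h0 g0 g1 g2
    have t1 := fun m1 m2 => shap0 _ _ _ _ _ _ η hη hη' a1 a2 a0 b1 b2 b0 (by linarith)
      (by linarith) m1 m2 (by linarith) (by linarith) (by linarith) (by linarith)
    have t2 := fun m1 m2 => shap0 _ _ _ _ _ _ η hη hη' a2 a0 a1 b2 b0 b1 (by linarith)
      (by linarith) m1 m2 (by linarith) (by linarith) (by linarith) (by linarith)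
    rcases le_total (τ s 0) (τ s 1) with x | x <;> rcases le_total (τ s 1) (τ s 2) with y | y <;>
      rcases le_total (τ s 2) (τ s 0) with z | z
    all_goals first
      | (have := t0 (by linarith) (by linarith); exact ⟨by linarith, by linarith, by linarith⟩)
      | (have := t1 (by linarith) (by linarith); exact ⟨by linarith, by linarith, by linarith⟩)
      | (have := t2 (by linarith) (by linarith); exact ⟨by linarith, by linarith, by linarith⟩)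
  obtain ⟨k0, k1, k2⟩ := key
  constructor <;>
    nlinarith [mul_le_mul_of_nonneg_left k0 a0, mul_le_mul_of_nonneg_left k0 a1,
      mul_le_mul_of_nonneg_left k1 a1, mul_le_mul_of_nonneg_left k1 a2,
      mul_le_mul_of_nonneg_left k2 a2, mul_le_mul_of_nonneg_left k2 a0]

end Pool.Agent.Lib.Helper33.DetReach
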