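import Mathlib

set_option autoImplicit false
set_option linter.unusedSectionVars false
open Polynomial

namespace Pool.Agent.Lib.Helper33.FreeSimple

/-- A commutative domain of characteristic three with an ideal on which `y ↦ y^27 - y^9` is onto
and with enough endomorphisms. -/
structure Model (R : Type) [CommRing R] where
  m : Ideal R
  t : R
  ht : t ∈ m
  ht0 : t ≠ 0
  hm : (1 : R) ∉ m
  ex : ∀ g ∈ m, ∃ y ∈ m, y ^ 27 - y ^ 9 = g
  endo : ∀ a ∈ m, ∃ φ : R →+* R, φ t = a ∧ ∀ x ∈ m, φ x ∈ m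

variable {R : Type} [CommRing R] [IsDomain R] [CharP R 3] (M : Model R)

open Classical in
noncomputable def V (g : R) : R := if h : g ∈ M.m then (M.ex g h).choose else 0

omit [IsDomain R] [CharP R 3] in
lemma V_mem (g : R) : V M g ∈ M.m := by
  unfold V; split_ifs with h
  · exact (M.ex g h).choose_spec.1
  · exact M.m.zero_mem

omit [IsDomain R] [CharP R 3] in
lemma V_spec {g : R} (h : g ∈ M.m) : V M g ^ 27 - V M g ^ 9 = g := by
  unfold V; rw [dif_pos h]; exact (M.ex g h).choose_spec.2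

omit [IsDomain R] in
lemma cube_add (x y : R) : (x + y) ^ 3 = x ^ 3 + y ^ 3 := add_pow_char x y 3

omit [IsDomain R] in
lemma U_add (x y : R) :
    (x + y) ^ 27 - (x + y) ^ 9 = (x ^ 27 - x ^ 9) + (y ^ 27 - y ^ 9) := by
  have h1 : (x + y) ^ 3 ^ 3 = x ^ 3 ^ 3 + y ^ 3 ^ 3 := add_pow_char_pow x y 3 3
  have h2 : (x + y) ^ 3 ^ 2 = x ^ 3 ^ 2 + y ^ 3 ^ 2 := add_pow_char_pow x y 3 2
  norm_num at h1 h2
  rw [h1, h2]; ring

lemma U_inj {y z : R} (hy : y ∈ M.m) (hz : z ∈ M.m) (h : y ^ 27 - y ^ 9 = z ^ 27 - z ^ 9) :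
    y = z := by
  have h1 := U_add (y - z) z
  rw [sub_add_cancel] at h1
  have hw : y - z ∈ M.m := M.m.sub_mem hy hz
  have h2 : (y - z) ^ 9 * ((y - z) ^ 18 - 1) = 0 := by linear_combination h - h1
  rcases mul_eq_zero.1 h2 with h3 | h3
  · exact sub_eq_zero.1 (pow_eq_zero_iff (by norm_num) |>.1 h3)
  · exfalso
    apply M.hm
    rw [← sub_eq_zero.1 h3]
    exact M.m.pow_mem_of_mem hw 18 (by norm_num)

lemma V_eq {y g : R} (hy : y ∈ M.m) (h : y ^ 27 - y ^ 9 = g) : V M g = y := by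
  have hg : g ∈ M.m := h ▸ M.m.sub_mem (M.m.pow_mem_of_mem hy 27 (by norm_num))
    (M.m.pow_mem_of_mem hy 9 (by norm_num))
  exact U_inj M (V_mem M g) hy (by rw [V_spec M hg, h])

lemma V_zero : V M 0 = 0 := V_eq M M.m.zero_mem (by simp)

lemma V_add {f g : R} (hf : f ∈ M.m) (hg : g ∈ M.m) : V M (f + g) = V M f + V M g :=
  V_eq M (M.m.add_mem (V_mem M f) (V_mem M g)) (by rw [U_add, V_spec M hf, V_spec M hg])

lemma V_neg {f : R} (hf : f ∈ M.m) : V M (-f) = -V M f := by
  have := V_add M hf (M.m.neg_mem hf)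
  rw [add_neg_cancel, V_zero] at this
  linear_combination -this

lemma V_map (φ : R →+* R) (hφ : ∀ x ∈ M.m, φ x ∈ M.m) {g : R} (hg : g ∈ M.m) :
    V M (φ g) = φ (V M g) :=
  V_eq M (hφ _ (V_mem M g)) (by rw [← map_pow, ← map_pow, ← map_sub, V_spec M hg])

def br (f g : R) : R := f * g ^ 3 - f ^ 3 * g

noncomputable def be (f g : R) : R := V M (br f g)

/-- the new multiplication -/
noncomputable def B (f g : R) : R := f * g + be M f g

omit [IsDomain R] [CharP R 3] in
lemma br_mem_left {f : R} (hf : f ∈ M.m) (g : R) : br f g ∈ M.m :=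
  M.m.sub_mem (M.m.mul_mem_right _ hf)
    (M.m.mul_mem_right _ (M.m.pow_mem_of_mem hf 3 (by norm_num)))

omit [IsDomain R] [CharP R 3] in
lemma br_mem_right (f : R) {g : R} (hg : g ∈ M.m) : br f g ∈ M.m :=
  M.m.sub_mem (M.m.mul_mem_left _ (M.m.pow_mem_of_mem hg 3 (by norm_num)))
    (M.m.mul_mem_left _ hg)

lemma be_add_left (f f' : R) {g : R} (hg : g ∈ M.m) :
    be M (f + f') g = be M f g + be M f' g := by
  unfold be
  rw [← V_add M (br_mem_right M f hg) (br_mem_right M f' hg)]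
  congr 1
  unfold br; rw [cube_add]; ring

lemma be_add_right {f : R} (hf : f ∈ M.m) (g g' : R) :
    be M f (g + g') = be M f g + be M f g' := by
  unfold be
  rw [← V_add M (br_mem_left M hf g) (br_mem_left M hf g')]
  congr 1
  unfold br; rw [cube_add]; ring

lemma be_swap {f : R} (hf : f ∈ M.m) (g : R) : be M g f = -be M f g := by
  unfold be
  rw [← V_neg M (br_mem_left M hf g)]
  congr 1
  unfold br; ring

lemma be_self (f : R) : be M f f = 0 := by
  unfold be
  rw [show br f f = 0 by unfold br; ring, V_zero]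

lemma key {e : R} (he : e ∈ M.m) :
    e = -be M (e ^ 8) (e ^ 3) + be M (e ^ 5) (e ^ 4) - be M (e ^ 6) e := by
  have hp : ∀ n, 0 < n → e ^ n ∈ M.m := fun n hn => M.m.pow_mem_of_mem he n hn
  have h1 := br_mem_left M (hp 8 (by norm_num)) (e ^ 3)
  have h2 := br_mem_left M (hp 5 (by norm_num)) (e ^ 4)
  have h3 := br_mem_left M (hp 6 (by norm_num)) e
  unfold be
  rw [← V_neg M h1, ← V_add M (M.m.neg_mem h1) h2, sub_eq_add_neg, ← V_neg M h3,
    ← V_add M (M.m.add_mem (M.m.neg_mem h1) h2) (M.m.neg_mem h3)]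
  symm
  apply V_eq M he
  unfold br; ring

/-- the elements generated by `t` under addition, negation and the new multiplication -/
inductive Gen : R → Prop
  | t : Gen M.t
  | zero : Gen 0
  | add {x y : R} : Gen x → Gen y → Gen (x + y)
  | neg {x : R} : Gen x → Gen (-x)
  | mul {x y : R} : Gen x → Gen y → Gen (B M x y)

omit [IsDomain R] [CharP R 3] in
lemma Gen.mem {x : R} (h : Gen M x) : x ∈ M.m := by
  induction h with
  | t => exact M.ht
  | zero => exact M.m.zero_mem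
  | add _ _ h1 h2 => exact M.m.add_mem h1 h2
  | neg _ h1 => exact M.m.neg_mem h1
  | mul _ _ h1 _ => exact M.m.add_mem (M.m.mul_mem_right _ h1) (V_mem M _)

lemma mul_eq {f : R} (hf : f ∈ M.m) (g : R) : f * g = -(B M f g + B M g f) := by
  unfold B
  rw [be_swap M hf g]
  have h3 : ((3 : ℕ) : R) = 0 := CharP.cast_eq_zero R 3
  push_cast at h3
  linear_combination (f * g) * h3

lemma Gen.mul' {x y : R} (hx : Gen M x) (hy : Gen M y) : Gen M (x * y) := by
  rw [mul_eq M (hx.mem M) y]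
  exact ((hx.mul hy).add (hy.mul hx)).neg

lemma Gen.pow {x : R} (hx : Gen M x) (n : ℕ) : Gen M (x ^ (n + 1)) := by
  induction n with
  | zero => simpa using hx
  | succ n ih => rw [pow_succ]; exact ih.mul' M hx

omit [CharP R 3] in
lemma Gen.integral {S : Type} [CommRing S] [Algebra S R] (ht : IsIntegral S M.t) {x : R}
    (h : Gen M x) : IsIntegral S x := by
  have : Nontrivial S := (algebraMap S R).domain_nontrivial
  induction h with
  | t => exact ht
  | zero => exact isIntegral_zero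
  | add _ _ h1 h2 => exact h1.add h2
  | neg _ h1 => exact h1.neg
  | @mul x y hx _ h1 h2 =>
    refine (h1.mul h2).add ?_
    have hm : (X ^ 27 - X ^ 9 : S[X]).Monic := by monicity!
    have hd : (X ^ 27 - X ^ 9 : S[X]).natDegree = 27 := by compute_degree!
    refine IsIntegral.of_aeval_monic hm (by rw [hd]; norm_num) ?_
    rw [map_sub, map_pow, map_pow, aeval_X]
    unfold be
    rw [V_spec M (br_mem_left M (hx.mem M) y)]
    exact (h1.mul (h2.pow 3)).sub ((h1.pow 3).mul h2)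

section Simple

variable (I : AddSubgroup R) (hI : ∀ f ∈ I, Gen M f)
  (hB : ∀ f ∈ I, ∀ g, Gen M g → B M f g ∈ I ∧ B M g f ∈ I)

include hI hB

lemma I_mul {f g : R} (hf : f ∈ I) (hg : Gen M g) : f * g ∈ I := by
  rw [mul_eq M ((hI f hf).mem M) g]
  exact I.neg_mem (I.add_mem (hB f hf g hg).1 (hB f hf g hg).2)

lemma I_be {f g : R} (hf : f ∈ I) (hg : Gen M g) : be M f g ∈ I := by
  have := I.sub_mem (hB f hf g hg).1 (I_mul M I hI hB hf hg)
  unfold B at this
  rwa [add_sub_cancel_left] at this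

lemma rad5 {e : R} (he : Gen M e) (h : e ^ 5 ∈ I) : e ∈ I := by
  rw [key M (he.mem M)]
  have h8 : e ^ 8 ∈ I := by
    have := I_mul M I hI hB h (he.pow M 2)
    rwa [← pow_add] at this
  have h6 : e ^ 6 ∈ I := by
    have := I_mul M I hI hB h he
    rwa [← pow_succ] at this
  exact I.sub_mem (I.add_mem (I.neg_mem (I_be M I hI hB h8 (he.pow M 2)))
    (I_be M I hI hB h (he.pow M 3))) (I_be M I hI hB h6 he)

lemma rad {e : R} (he : Gen M e) (n : ℕ) (h : e ^ (n + 1) ∈ I) : e ∈ I := by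
  have aux : ∀ k : ℕ, e ^ 5 ^ k ∈ I → e ∈ I := by
    intro k
    induction k with
    | zero => intro h; simpa using h
    | succ k ih =>
      intro h
      apply ih
      obtain ⟨j, hj⟩ : ∃ j, 5 ^ k = j + 1 := ⟨5 ^ k - 1, by
        have : 0 < 5 ^ k := by positivity
        omega⟩
      refine rad5 M I hI hB (by rw [hj]; exact he.pow M j) ?_
      rwa [← pow_mul, ← pow_succ]
  apply aux (n + 1)
  have h1 : n + 1 < 5 ^ (n + 1) := Nat.lt_pow_self (by norm_num)
  obtain ⟨j, hj⟩ : ∃ j, 5 ^ (n + 1) = (n + 1) + (j + 1) := ⟨5 ^ (n + 1) - (n + 1) - 1, by omega⟩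
  rw [hj, pow_add]
  exact I_mul M I hI hB h (he.pow M j)

lemma idem {e : R} (he : Gen M e) (h : e ^ 2 - e ∈ I) : e ∈ I := by
  have h1 : ∀ n : ℕ, e ^ (n + 1) - e ∈ I := by
    intro n
    induction n with
    | zero => simp
    | succ n ih =>
      have := I.add_mem (I_mul M I hI hB ih he) h
      rwa [show (e ^ (n + 1) - e) * e + (e ^ 2 - e) = e ^ (n + 1 + 1) - e by ring] at this
  have h2 : ∀ i j : ℕ, be M (e ^ (i + 1)) (e ^ (j + 1)) ∈ I := by
    intro i j
    have e1 : be M (e ^ (i + 1)) (e ^ (j + 1)) =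
        be M (e ^ (i + 1) - e) (e ^ (j + 1)) + (-be M (e ^ (j + 1) - e) e + be M e e) := by
      rw [← be_swap M ((hI _ (h1 j)).mem M) e, ← be_add_right M (he.mem M), sub_add_cancel,
        ← be_add_left M _ _ ((he.pow M j).mem M), sub_add_cancel]
    rw [e1, be_self, add_zero]
    exact I.add_mem (I_be M I hI hB (h1 i) (he.pow M j)) (I.neg_mem (I_be M I hI hB (h1 j) he))
  rw [key M (he.mem M)]
  have h3 := h2 5 0
  rw [zero_add, pow_one] at h3
  exact I.sub_mem (I.add_mem (I.neg_mem (h2 7 2)) (h2 4 3)) h3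

lemma t_mem {f : R} (hf : f ∈ I) (hf0 : f ≠ 0) : M.t ∈ I := by
  let O : Subring R :=
    { carrier := {r | ∀ x ∈ I, r * x ∈ I}
      mul_mem' := fun {a b} ha hb x hx => by rw [mul_assoc]; exact ha _ (hb x hx)
      one_mem' := fun x hx => by rwa [one_mul]
      add_mem' := fun {a b} ha hb x hx => by rw [add_mul]; exact I.add_mem (ha x hx) (hb x hx)
      zero_mem' := fun x _ => by rw [zero_mul]; exact I.zero_mem
      neg_mem' := fun {a} ha x hx => by rw [neg_mul]; exact I.neg_mem (ha x hx) }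
  have hO : ∀ g, Gen M g → g ∈ O := fun g hg x hx => by
    rw [mul_comm]; exact I_mul M I hI hB hx hg
  let J : Ideal O :=
    { carrier := {x | x.1 ∈ I}
      add_mem' := fun {a b} ha hb => I.add_mem ha hb
      zero_mem' := I.zero_mem
      smul_mem' := fun c x hx => c.2 x.1 hx }
  let ψ : (ZMod 3)[X] →+* O := eval₂RingHom (ZMod.castHom (dvd_refl 3) O) ⟨M.t, hO _ Gen.t⟩
  have hψ : ψ X = ⟨M.t, hO _ Gen.t⟩ := by simp [ψ]
  let : Algebra (ZMod 3)[X] R := (O.subtype.comp ψ).toAlgebra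
  have ht : IsIntegral (ZMod 3)[X] M.t := by
    have : algebraMap (ZMod 3)[X] R X = M.t := by
      change O.subtype (ψ X) = M.t
      rw [hψ]; rfl
    rw [← this]; exact isIntegral_algebraMap
  obtain ⟨P, hP, hP0⟩ := (hI f hf).integral M ht
  have hP1 : P.eval₂ ψ ⟨f, hO _ (hI f hf)⟩ = 0 := by
    apply O.subtype_injective
    rw [hom_eval₂, map_zero]
    exact hP0
  obtain ⟨i, hc0, hc⟩ := Ideal.exists_coeff_ne_zero_mem_comap_of_root_mem (I := J) (f := ψ)
    (r := ⟨f, hO _ (hI f hf)⟩) (fun h => hf0 (congrArg Subtype.val h)) hf hP.ne_zero hP1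
  generalize P.coeff i = c at hc0 hc
  have : Module.Finite (ZMod 3) (AdjoinRoot c) := (AdjoinRoot.powerBasis hc0).finite
  have : Finite (AdjoinRoot c) := Module.finite_of_finite (ZMod 3)
  obtain ⟨a, b, hab, h⟩ : ∃ a b : ℕ, a < b ∧ AdjoinRoot.root c ^ a = AdjoinRoot.root c ^ b := by
    obtain ⟨a, b, hne, h⟩ := Finite.exists_ne_map_eq_of_infinite
      (fun n : ℕ => AdjoinRoot.root c ^ n)
    rcases lt_or_gt_of_ne hne with h1 | h1
    · exact ⟨a, b, h1, h⟩
    · exact ⟨b, a, h1, h.symm⟩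
  obtain ⟨d, rfl⟩ : ∃ d, b = a + (d + 1) := ⟨b - a - 1, by omega⟩
  have hper : ∀ k : ℕ, AdjoinRoot.root c ^ (a + k * (d + 1)) = AdjoinRoot.root c ^ a := by
    intro k
    induction k with
    | zero => simp
    | succ k ih =>
      rw [show a + (k + 1) * (d + 1) = (a + k * (d + 1)) + (d + 1) by ring, pow_add, ih,
        ← pow_add, ← h]
  obtain ⟨n, hn⟩ : ∃ n, (a + 1) * (d + 1) = n + 1 := ⟨(a + 1) * (d + 1) - 1, by
    have : 0 < (a + 1) * (d + 1) := by positivity
    omega⟩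
  obtain ⟨u, hu⟩ : ∃ u, n + 1 = a + u := ⟨n + 1 - a, by
    have : a + 1 ≤ (a + 1) * (d + 1) := Nat.le_mul_of_pos_right _ (by omega)
    omega⟩
  have hid : (AdjoinRoot.root c ^ (n + 1)) ^ 2 = AdjoinRoot.root c ^ (n + 1) := by
    have e1 : (n + 1) * 2 = (a + (a + 1) * (d + 1)) + u := by omega
    rw [← pow_mul, e1, pow_add, hper, ← pow_add, ← hu]
  have hdvd : c ∣ (X ^ (n + 1)) ^ 2 - X ^ (n + 1) := by
    rw [← AdjoinRoot.mk_eq_mk]
    simpa using hid
  have hmem : ((X ^ (n + 1)) ^ 2 - X ^ (n + 1) : (ZMod 3)[X]) ∈ J.comap ψ :=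
    Ideal.mem_of_dvd _ hdvd hc
  have hmem' : (M.t ^ (n + 1)) ^ 2 - M.t ^ (n + 1) ∈ I := by
    rw [Ideal.mem_comap, map_sub, map_pow, map_pow, hψ] at hmem
    exact hmem
  exact rad M I hI hB Gen.t n (idem M I hI hB (Gen.pow M Gen.t n) hmem')

end Simple

/-- the generated additive subgroup -/
def Asub : AddSubgroup R where
  carrier := {x | Gen M x}
  add_mem' := Gen.add
  zero_mem' := Gen.zero
  neg_mem' := Gen.neg

/-- the carrier of the example -/
def A : Type := ↥(Asub M)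

noncomputable instance : AddCommGroup (A M) := inferInstanceAs (AddCommGroup ↥(Asub M))

noncomputable instance : Mul (A M) := ⟨fun x y => ⟨B M x.1 y.1, Gen.mul x.2 y.2⟩⟩

lemma A_mul_val (x y : A M) : (x * y).1 = B M x.1 y.1 := rfl

lemma A_add_val (x y : A M) : (x + y).1 = x.1 + y.1 := rfl

lemma A_zero_val : (0 : A M).1 = 0 := rfl

lemma A_neg_val (x : A M) : (-x).1 = -x.1 := rfl

noncomputable instance : NonUnitalNonAssocRing (A M) :=
  { (inferInstance : AddCommGroup (A M)), (inferInstance : Mul (A M)) with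
    left_distrib := fun x y z => Subtype.ext (by
      simp only [A_mul_val, A_add_val, B]
      rw [be_add_right M (Gen.mem M x.2)]; ring)
    right_distrib := fun x y z => Subtype.ext (by
      simp only [A_mul_val, A_add_val, B]
      rw [be_add_left M _ _ (Gen.mem M z.2)]; ring)
    zero_mul := fun x => Subtype.ext (by
      simp [A_mul_val, A_zero_val, B, be, br, V_zero])
    mul_zero := fun x => Subtype.ext (by
      simp [A_mul_val, A_zero_val, B, be, br, V_zero]) }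

/-- the generator -/
def tA : A M := ⟨M.t, Gen.t⟩

lemma gen_top (S : Set (A M)) (ht : tA M ∈ S) (h0 : (0 : A M) ∈ S)
    (hadd : ∀ x ∈ S, ∀ y ∈ S, x + y ∈ S) (hneg : ∀ x ∈ S, -x ∈ S)
    (hmul : ∀ x ∈ S, ∀ y ∈ S, x * y ∈ S) (x : A M) : x ∈ S := by
  obtain ⟨x, hx⟩ := x
  change Gen M x at hx
  induction hx with
  | t => exact ht
  | zero => exact h0
  | add _ _ h1 h2 => exact hadd _ h1 _ h2
  | neg _ h1 => exact hneg _ h1
  | mul _ _ h1 h2 => exact hmul _ h1 _ h2

lemma B_map (φ : R →+* R) (hφ : ∀ x ∈ M.m, φ x ∈ M.m) {x : R} (hx : x ∈ M.m) (y : R) :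
    φ (B M x y) = B M (φ x) (φ y) := by
  unfold B be
  rw [map_add, map_mul, ← V_map M φ hφ (br_mem_left M hx y)]
  unfold br
  simp

include M in
theorem main :
    ∃ (A : Type) (_ : NonUnitalNonAssocRing A) (p : ℕ),
      p.Prime ∧ 3 ≤ p ∧ (∀ r : A, p • r = 0) ∧
      IsSimpleOrder (TwoSidedIdeal A) ∧ (∃ a b : A, a * b ≠ 0) ∧
      ∃ X : Set A,
        (∀ S : NonUnitalSubring A, X ⊆ (S : Set A) → S = ⊤) ∧
        ∀ f : A → A, ∃ φ : A →ₙ+* A, ∀ x ∈ X, φ x = f x := by
  have h3 : ((3 : ℕ) : R) = 0 := CharP.cast_eq_zero R 3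
  have ht0 : tA M ≠ 0 := fun h => M.ht0 (congrArg Subtype.val h)
  refine ⟨A M, inferInstance, 3, Nat.prime_three, le_rfl, fun r => ?_, ?_, ⟨tA M, tA M, ?_⟩,
    {tA M}, fun S hS => ?_, fun f => ?_⟩
  · apply Subtype.ext
    have : (3 • r : A M) = r + r + r := by
      rw [show (3 : ℕ) = 1 + 1 + 1 from rfl, add_nsmul, add_nsmul, one_nsmul]
    rw [this, A_add_val, A_add_val, A_zero_val]
    push_cast at h3
    linear_combination r.1 * h3
  · have : Nontrivial (A M) := ⟨tA M, 0, ht0⟩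
    refine { eq_bot_or_eq_top := fun I => ?_ }
    by_cases hI : ∀ x ∈ I, x = 0
    · left
      exact eq_bot_iff.2 fun x hx => by
        rw [hI x hx]; exact TwoSidedIdeal.zero_mem _
    · right
      push Not at hI
      obtain ⟨f, hf, hf0⟩ := hI
      let I' : AddSubgroup R :=
        { carrier := {x | ∃ h : Gen M x, (⟨x, h⟩ : A M) ∈ I}
          add_mem' := fun ⟨h1, h2⟩ ⟨h3, h4⟩ => ⟨h1.add h3, I.add_mem h2 h4⟩
          zero_mem' := ⟨Gen.zero, I.zero_mem⟩
          neg_mem' := fun ⟨h1, h2⟩ => ⟨h1.neg, I.neg_mem h2⟩ }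
      have ht : M.t ∈ I' := t_mem M I' (fun _ h => h.1)
        (fun x hx g hg => ⟨⟨hx.1.mul hg, I.mul_mem_right _ (⟨g, hg⟩ : A M) hx.2⟩,
          ⟨hg.mul hx.1, I.mul_mem_left (⟨g, hg⟩ : A M) _ hx.2⟩⟩)
        (f := f.1) ⟨f.2, hf⟩ (fun h => hf0 (Subtype.ext h))
      exact eq_top_iff.2 fun x _ => gen_top M (I : Set (A M)) ht.2 I.zero_mem
        (fun _ h1 _ h2 => I.add_mem h1 h2) (fun _ h => I.neg_mem h)
        (fun _ h1 y _ => I.mul_mem_right _ y h1) x
  · intro h
    have h1 : B M M.t M.t = 0 := congrArg Subtype.val h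
    unfold B at h1
    rw [be_self, add_zero] at h1
    exact M.ht0 (mul_self_eq_zero.1 h1)
  · exact eq_top_iff.2 fun x _ => gen_top M (S : Set (A M)) (hS rfl) S.zero_mem
      (fun _ h1 _ h2 => S.add_mem h1 h2) (fun _ h => S.neg_mem h)
      (fun _ h1 _ h2 => S.mul_mem h1 h2) x
  · obtain ⟨φ, hφt, hφ⟩ := M.endo (f (tA M)).1 (Gen.mem M (f (tA M)).2)
    have hg : ∀ x, Gen M x → Gen M (φ x) := by
      intro x hx
      induction hx with
      | t => rw [hφt]; exact (f (tA M)).2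
      | zero => rw [map_zero]; exact Gen.zero
      | add _ _ h1 h2 => rw [map_add]; exact h1.add h2
      | neg _ h1 => rw [map_neg]; exact h1.neg
      | mul hx _ h1 h2 => rw [B_map M φ hφ (hx.mem M)]; exact h1.mul h2
    refine ⟨{ toFun := fun x => ⟨φ x.1, hg _ x.2⟩
              map_mul' := fun x y => Subtype.ext (B_map M φ hφ (Gen.mem M x.2) y.1)
              map_zero' := Subtype.ext (map_zero φ)
              map_add' := fun x y => Subtype.ext (map_add φ x.1 y.1) }, fun x hx => ?_⟩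
    rw [Set.mem_singleton_iff.1 hx]
    exact Subtype.ext hφt

end Pool.Agent.Lib.Helper33.FreeSimple
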