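import Mathlib

set_option autoImplicit false
open MeasureTheory Filter Topology

namespace Pool.Agent.Lib.Helper33.HilbGen

lemma pw0 (k : ℕ) : ∃ K : ℝ, 0 < K ∧ ∀ x y : ℝ,
    |(x + y) ^ (k + 2) - x ^ (k + 2) - (k + 2) * x ^ (k + 1) * y| ≤ K * (|x| + |y|) ^ k * y ^ 2 := by
  induction k with
  | zero =>
    refine ⟨1, one_pos, fun x y => ?_⟩
    have : (x + y) ^ (0 + 2) - x ^ (0 + 2) - ((0 : ℕ) + 2) * x ^ (0 + 1) * y = y ^ 2 := by
      push_cast; ring
    rw [this, abs_of_nonneg (sq_nonneg y)]; simp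
  | succ k ih =>
    obtain ⟨K, hK, h⟩ := ih
    refine ⟨K + (k + 2), by positivity, fun x y => ?_⟩
    have e : (x + y) ^ (k + 1 + 2) - x ^ (k + 1 + 2) - ((k + 1 : ℕ) + 2) * x ^ (k + 1 + 1) * y =
        (x + y) * ((x + y) ^ (k + 2) - x ^ (k + 2) - (k + 2) * x ^ (k + 1) * y) +
          (k + 2) * x ^ (k + 1) * y ^ 2 := by
      push_cast; ring
    rw [e]
    have h1 : |(x + y) * ((x + y) ^ (k + 2) - x ^ (k + 2) - (k + 2) * x ^ (k + 1) * y)| ≤
        (|x| + |y|) * (K * (|x| + |y|) ^ k * y ^ 2) := by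
      rw [abs_mul]
      exact mul_le_mul (abs_add_le x y) (h x y) (abs_nonneg _) (by positivity)
    have h2 : |(k + 2) * x ^ (k + 1) * y ^ 2| ≤ (k + 2) * (|x| + |y|) ^ (k + 1) * y ^ 2 := by
      rw [abs_mul, abs_mul, abs_pow, abs_of_nonneg (sq_nonneg y),
        abs_of_nonneg (by positivity : (0 : ℝ) ≤ k + 2)]
      gcongr
      linarith [abs_nonneg y]
    calc _ ≤ _ := abs_add_le _ _
      _ ≤ _ := add_le_add h1 h2
      _ = _ := by ring

lemma pw (k : ℕ) : ∃ ρ : ℝ, 0 < ρ ∧ ∀ x z u a b : ℝ, |u| ≤ 1 → 0 < a → 0 < b →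
    (x + ρ * u * z) ^ (2 * k + 2) ≤ x ^ (2 * k + 2) + (2 * k + 2) * ρ * (x ^ (2 * k + 1) * z * u) +
      b * (a + b) ^ k / 2 * (x ^ (2 * k + 2) / a ^ (k + 1) + z ^ (2 * k + 2) / b ^ (k + 1)) := by
  obtain ⟨K, hK, h⟩ := pw0 (2 * k)
  obtain ⟨ρ, r0, r1, r2⟩ : ∃ ρ : ℝ, 0 < ρ ∧ ρ ≤ 1 ∧ K * 2 ^ k * ρ ≤ 1 / 2 := by
    have p : 0 < K * 2 ^ k := by positivity
    refine ⟨1 / (2 * (K * 2 ^ k) + 1), by positivity, ?_, ?_⟩
    · rw [div_le_one (by positivity)]; linarith
    · rw [mul_one_div, div_le_div_iff₀ (by positivity) (by norm_num)]; linarith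
  refine ⟨ρ, r0, fun x z u a b hu ha hb => ?_⟩
  set y := ρ * u * z with hy
  have h1 := (abs_le.1 (h x y)).2
  set s := max (x ^ 2 / a) (z ^ 2 / b) with hs
  have s0 : 0 ≤ s := le_max_of_le_left (by positivity)
  have sx : x ^ 2 ≤ s * a := by rw [← div_le_iff₀ ha]; exact le_max_left _ _
  have sz : z ^ 2 ≤ s * b := by rw [← div_le_iff₀ hb]; exact le_max_right _ _
  have u2 : u ^ 2 ≤ 1 := by rw [← sq_abs]; nlinarith [abs_nonneg u]
  have y2 : y ^ 2 ≤ ρ * (s * b) := by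
    calc y ^ 2 = ρ * (ρ * u ^ 2 * z ^ 2) := by rw [hy]; ring
      _ ≤ ρ * (1 * 1 * (s * b)) := by gcongr
      _ = _ := by ring
  have y3 : y ^ 2 ≤ s * b := y2.trans (by nlinarith [mul_nonneg s0 hb.le])
  have h2 : (|x| + |y|) ^ (2 * k) ≤ (2 * (s * (a + b))) ^ k := by
    rw [pow_mul]
    apply pow_le_pow_left₀ (sq_nonneg _)
    nlinarith [sq_abs x, sq_abs y, sq_nonneg (|x| - |y|)]
  have h3 : s ^ (k + 1) ≤ x ^ (2 * k + 2) / a ^ (k + 1) + z ^ (2 * k + 2) / b ^ (k + 1) := by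
    have e1 : x ^ (2 * k + 2) / a ^ (k + 1) = (x ^ 2 / a) ^ (k + 1) := by
      rw [div_pow, ← pow_mul]; ring_nf
    have e2 : z ^ (2 * k + 2) / b ^ (k + 1) = (z ^ 2 / b) ^ (k + 1) := by
      rw [div_pow, ← pow_mul]; ring_nf
    rw [e1, e2]
    rcases max_choice (x ^ 2 / a) (z ^ 2 / b) with e | e <;> rw [hs, e]
    · exact le_add_of_nonneg_right (by positivity)
    · exact le_add_of_nonneg_left (by positivity)
  have h4 : K * (|x| + |y|) ^ (2 * k) * y ^ 2 ≤ b * (a + b) ^ k / 2 * s ^ (k + 1) := by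
    calc _ ≤ K * (2 * (s * (a + b))) ^ k * (ρ * (s * b)) := by gcongr
      _ = (K * 2 ^ k * ρ) * (b * (a + b) ^ k * s ^ (k + 1)) := by rw [mul_pow, mul_pow]; ring
      _ ≤ (1 / 2) * (b * (a + b) ^ k * s ^ (k + 1)) := by gcongr
      _ = _ := by ring
  have h5 : b * (a + b) ^ k / 2 * s ^ (k + 1) ≤ b * (a + b) ^ k / 2 *
      (x ^ (2 * k + 2) / a ^ (k + 1) + z ^ (2 * k + 2) / b ^ (k + 1)) := by gcongr
  have e : ((2 * k : ℕ) + 2 : ℝ) * x ^ (2 * k + 1) * y =
      (2 * k + 2) * ρ * (x ^ (2 * k + 1) * z * u) := by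
    rw [hy]; push_cast; ring
  linarith

/-- bounded and measurable -/
def BM {α : Type} (m : MeasurableSpace α) (f : α → ℝ) : Prop :=
  Measurable[m] f ∧ ∃ C, ∀ x, |f x| ≤ C

section
variable {α : Type} {m : MeasurableSpace α}

lemma BM.const (c : ℝ) : BM m fun _ => c := ⟨measurable_const, |c|, fun _ => le_rfl⟩

lemma BM.add {f g : α → ℝ} (hf : BM m f) (hg : BM m g) : BM m fun x => f x + g x := by
  obtain ⟨a, C, hC⟩ := hf
  obtain ⟨b, D, hD⟩ := hg
  exact ⟨a.add b, C + D, fun x => (abs_add_le _ _).trans (add_le_add (hC x) (hD x))⟩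

lemma BM.mul {f g : α → ℝ} (hf : BM m f) (hg : BM m g) : BM m fun x => f x * g x := by
  obtain ⟨a, C, hC⟩ := hf
  obtain ⟨b, D, hD⟩ := hg
  refine ⟨a.mul b, C * D, fun x => ?_⟩
  rw [abs_mul]
  exact mul_le_mul (hC x) (hD x) (abs_nonneg _) ((abs_nonneg _).trans (hC x))

lemma BM.sum {ι : Type} (s : Finset ι) {f : ι → α → ℝ} (h : ∀ i ∈ s, BM m (f i)) :
    BM m fun x => ∑ i ∈ s, f i x := by
  classical
  induction s using Finset.induction_on with
  | empty => simpa using BM.const 0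
  | insert a s ha ih =>
    simp only [Finset.sum_insert ha]
    exact (h a (Finset.mem_insert_self _ _)).add (ih fun i hi => h i (Finset.mem_insert_of_mem hi))

lemma BM.prod {ι : Type} (s : Finset ι) {f : ι → α → ℝ} (h : ∀ i ∈ s, BM m (f i)) :
    BM m fun x => ∏ i ∈ s, f i x := by
  classical
  induction s using Finset.induction_on with
  | empty => simpa using BM.const 1
  | insert a s ha ih =>
    simp only [Finset.prod_insert ha]
    exact (h a (Finset.mem_insert_self _ _)).mul (ih fun i hi => h i (Finset.mem_insert_of_mem hi))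

lemma BM.pow {f : α → ℝ} (hf : BM m f) (n : ℕ) : BM m fun x => f x ^ n := by
  simpa using BM.prod (Finset.range n) (f := fun _ => f) fun _ _ => hf

lemma BM.mono {m' : MeasurableSpace α} (h : m ≤ m') {f : α → ℝ} (hf : BM m f) : BM m' f :=
  ⟨hf.1.mono h le_rfl, hf.2⟩

lemma BM.memLp {f : α → ℝ} (hf : BM m f) (p : ENNReal) (μ : Measure α) [IsFiniteMeasure μ] :
    MemLp f p μ := by
  obtain ⟨a, C, hC⟩ := hf
  exact MemLp.of_bound a.aestronglyMeasurable C (.of_forall hC)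

lemma BM.int {f : α → ℝ} (hf : BM m f) (μ : Measure α) [IsFiniteMeasure μ] : Integrable f μ :=
  memLp_one_iff_integrable.1 (hf.memLp 1 μ)

end

lemma bessel {α I : Type} [LinearOrder I] {m : MeasurableSpace α} (μ : Measure α)
    [IsFiniteMeasure μ] (F : I → MeasurableSpace α) (hF : ∀ i, F i ≤ m) (u : I → α → ℝ)
    (hb : ∀ i x, |u i x| ≤ 1) (hm : ∀ i, BM m (u i)) (hm' : ∀ i j, j < i → BM (F i) (u j))
    (ho : ∀ i G, BM (F i) G → ∫ x, G x * u i x ∂μ = 0) (k : ℕ) :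
    ∃ ρ : ℝ, 0 < ρ ∧ ∀ (J : Finset I) (c : Finset I → ℝ) (a : ℝ),
      ∑ S ∈ J.powerset, c S ^ 2 < a →
      ∫ x, (∑ S ∈ J.powerset, c S * (ρ ^ S.card * ∏ i ∈ S, u i x)) ^ (2 * k + 2) ∂μ ≤
        μ.real Set.univ * a ^ (k + 1) := by
  obtain ⟨ρ, r0, h⟩ := pw k
  refine ⟨ρ, r0, fun J => ?_⟩
  have μ0 : 0 ≤ μ.real Set.univ := measureReal_nonneg
  induction J using Finset.induction_on_max with
  | empty =>
    intro c a ha
    simp only [Finset.powerset_empty, Finset.sum_singleton, Finset.card_empty, pow_zero,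
      Finset.prod_empty, mul_one, integral_const, smul_eq_mul] at ha ⊢
    have : c ∅ ^ (2 * k + 2) = (c ∅ ^ 2) ^ (k + 1) := by rw [← pow_mul]; ring_nf
    rw [this]
    gcongr
  | insert β J hJ ih =>
    intro c a ha
    have nm : β ∉ J := fun h => lt_irrefl _ (hJ β h)
    rw [Finset.sum_powerset_insert nm] at ha
    set s0 := ∑ S ∈ J.powerset, c S ^ 2 with hs0
    set s1 := ∑ S ∈ J.powerset, c (insert β S) ^ 2 with hs1
    have p0 : 0 ≤ s0 := Finset.sum_nonneg fun _ _ => sq_nonneg _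
    have p1 : 0 ≤ s1 := Finset.sum_nonneg fun _ _ => sq_nonneg _
    obtain ⟨a0, a1, e, l0, l1⟩ : ∃ a0 a1, a = a0 + a1 ∧ s0 < a0 ∧ s1 < a1 :=
      ⟨s0 + (a - s0 - s1) / 2, s1 + (a - s0 - s1) / 2, by ring, by linarith, by linarith⟩
    have i0 := ih c a0 l0
    have i1 := ih (fun S => c (insert β S)) a1 l1
    have q0 : 0 < a0 := by linarith
    have q1 : 0 < a1 := by linarith
    set X : α → ℝ := fun x => ∑ S ∈ J.powerset, c S * (ρ ^ S.card * ∏ i ∈ S, u i x) with hX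
    set Z : α → ℝ := fun x => ∑ S ∈ J.powerset, c (insert β S) * (ρ ^ S.card * ∏ i ∈ S, u i x)
      with hZ
    have bm : ∀ c : Finset I → ℝ,
        BM (F β) fun x => ∑ S ∈ J.powerset, c S * (ρ ^ S.card * ∏ i ∈ S, u i x) := fun c =>
      BM.sum _ fun S hS => (BM.const _).mul ((BM.const _).mul (BM.prod _ fun i hi =>
        hm' β i (hJ i (Finset.mem_powerset.1 hS hi))))
    have bX : BM (F β) X := bm c
    have bZ : BM (F β) Z := bm _
    have e2 : ∀ x, ∑ S ∈ (insert β J).powerset, c S * (ρ ^ S.card * ∏ i ∈ S, u i x) =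
        X x + ρ * u β x * Z x := fun x => by
      rw [Finset.sum_powerset_insert nm, hX, hZ, Finset.mul_sum]
      congr 1
      refine Finset.sum_congr rfl fun S hS => ?_
      have : β ∉ S := fun h => nm (Finset.mem_powerset.1 hS h)
      rw [Finset.prod_insert this, Finset.card_insert_of_notMem this]
      ring
    simp only [e2]
    have jX := ((bX.mono (hF β)).pow (2 * k + 2)).int μ
    have jZ := ((bZ.mono (hF β)).pow (2 * k + 2)).int μ
    have jC := ((((bX.pow (2 * k + 1)).mul bZ).mono (hF β)).mul (hm β)).int μ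
    have j2 : Integrable (fun x => a1 * (a0 + a1) ^ k / 2 *
        (X x ^ (2 * k + 2) / a0 ^ (k + 1) + Z x ^ (2 * k + 2) / a1 ^ (k + 1))) μ :=
      ((jX.div_const (a0 ^ (k + 1))).add (jZ.div_const (a1 ^ (k + 1)))).const_mul _
    have j1 : Integrable (fun x => X x ^ (2 * k + 2) +
        (2 * k + 2) * ρ * (X x ^ (2 * k + 1) * Z x * u β x)) μ := jX.add (jC.const_mul _)
    calc _ ≤ ∫ x, (X x ^ (2 * k + 2) + (2 * k + 2) * ρ * (X x ^ (2 * k + 1) * Z x * u β x) +
          a1 * (a0 + a1) ^ k / 2 *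
            (X x ^ (2 * k + 2) / a0 ^ (k + 1) + Z x ^ (2 * k + 2) / a1 ^ (k + 1))) ∂μ :=
          integral_mono ((((bX.mono (hF β)).add (((BM.const ρ).mul (hm β)).mul
            (bZ.mono (hF β)))).pow _).int μ) (j1.add j2)
            fun x => h _ _ _ _ _ (hb β x) q0 q1
      _ = ∫ x, X x ^ (2 * k + 2) ∂μ + a1 * (a0 + a1) ^ k / 2 *
            ((∫ x, X x ^ (2 * k + 2) ∂μ) / a0 ^ (k + 1) +
              (∫ x, Z x ^ (2 * k + 2) ∂μ) / a1 ^ (k + 1)) := by
          rw [integral_add j1 j2,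
            integral_add jX (jC.const_mul _), integral_const_mul, integral_const_mul,
            ho β _ ((bX.pow (2 * k + 1)).mul bZ), integral_add (jX.div_const _) (jZ.div_const _),
            integral_div, integral_div]
          ring
      _ ≤ μ.real Set.univ * a0 ^ (k + 1) + a1 * (a0 + a1) ^ k / 2 *
            (μ.real Set.univ * a0 ^ (k + 1) / a0 ^ (k + 1) +
              μ.real Set.univ * a1 ^ (k + 1) / a1 ^ (k + 1)) := by gcongr
      _ = μ.real Set.univ * (a0 ^ k * a0 + (a0 + a1) ^ k * a1) := by field_simp; ring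
      _ ≤ μ.real Set.univ * ((a0 + a1) ^ k * a0 + (a0 + a1) ^ k * a1) := by
          gcongr; linarith
      _ = _ := by rw [e]; ring

lemma synth {ι X : Type} [DecidableEq ι] [NormedAddCommGroup X] [NormedSpace ℝ X]
    [CompleteSpace X] (g : ι → X) (C : ℝ) (hC : 0 < C)
    (h : ∀ (T : Finset ι) (c : ι → ℝ), ∑ i ∈ T, c i ^ 2 < 1 → ‖∑ i ∈ T, c i • g i‖ ≤ C) :
    ∃ T : lp (fun _ : ι => ℝ) 2 →L[ℝ] X, ∀ i, T (lp.single 2 i 1) = g i := by
  have h' : ∀ (T : Finset ι) (c : ι → ℝ) (t : ℝ), 0 < t → ∑ i ∈ T, c i ^ 2 < t ^ 2 →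
      ‖∑ i ∈ T, c i • g i‖ ≤ C * t := fun T c t ht hc => by
    have := h T (fun i => t⁻¹ * c i) (by
      simp only [mul_pow, ← Finset.mul_sum]
      rw [inv_pow, inv_mul_lt_iff₀ (by positivity), mul_one]; exact hc)
    simp only [mul_smul, ← Finset.smul_sum, norm_smul, Real.norm_eq_abs, abs_of_pos (inv_pos.2 ht)]
      at this
    rwa [inv_mul_le_iff₀ ht, mul_comm] at this
  have sq : ∀ c : lp (fun _ : ι => ℝ) 2, HasSum (fun i => c i ^ 2) (‖c‖ ^ 2) := fun c => by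
    simpa using lp.hasSum_norm (p := 2) (by norm_num) c
  have sm : ∀ c : lp (fun _ : ι => ℝ) 2, Summable fun i => c i • g i := fun c => by
    rw [summable_iff_vanishing_norm]
    intro ε hε
    obtain ⟨s, hs⟩ := summable_iff_vanishing_norm.1 (sq c).summable ((ε / (2 * C)) ^ 2)
      (by positivity)
    refine ⟨s, fun t ht => (h' t c (ε / (2 * C)) (by positivity)
      ((le_abs_self _).trans_lt (hs t ht))).trans_lt ?_⟩
    have : C * (ε / (2 * C)) = ε / 2 := by field_simp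
    linarith
  let L : lp (fun _ : ι => ℝ) 2 →ₗ[ℝ] X :=
    { toFun := fun c => ∑' i, c i • g i
      map_add' := fun a b => by
        rw [← (sm a).tsum_add (sm b)]
        simp only [lp.coeFn_add, Pi.add_apply, add_smul]
      map_smul' := fun r a => by
        rw [RingHom.id_apply, ← (sm a).tsum_const_smul]
        simp only [lp.coeFn_smul, Pi.smul_apply, smul_eq_mul, mul_smul] }
  refine ⟨L.mkContinuous C fun c => ?_, fun i => ?_⟩
  · refine le_of_forall_pos_le_add fun ε hε => ?_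
    have hb : ∀ T : Finset ι, ‖∑ i ∈ T, c i • g i‖ ≤ C * ‖c‖ + ε := fun T => by
      have p : 0 < ε / C := by positivity
      refine (h' T c (‖c‖ + ε / C) (by positivity) ?_).trans (le_of_eq (by field_simp))
      refine (sum_le_hasSum T (fun _ _ => sq_nonneg _) (sq c)).trans_lt ?_
      nlinarith [norm_nonneg c]
    exact le_of_tendsto' (sm c).hasSum.norm hb
  · change ∑' j, (lp.single 2 i (1 : ℝ) : lp (fun _ : ι => ℝ) 2) j • g j = g i
    rw [tsum_eq_single i fun j hj => by rw [lp.single_apply_ne _ _ _ hj, zero_smul],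
      lp.single_apply_self, one_smul]

end Pool.Agent.Lib.Helper33.HilbGen
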