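import Mathlib

set_option autoImplicit false

namespace Pool.Agent.Lib.Helper33.Lfp

/-- The supremum of the iterates of a monotone continuous operator is its least fixed point above
the starting vector. -/
theorem lfp {S : Type} (G : (S → ℝ) → (S → ℝ)) (hm : Monotone G) (hc : Continuous G)
    (x0 : S → ℝ) (h0 : x0 ≤ G x0) (h1 : x0 ≤ 1) (hG1 : G 1 ≤ 1) (R : S → ℝ)
    (hR : ∀ s, R s = ⨆ n : ℕ, G^[n] x0 s) :
    G R = R ∧ x0 ≤ R ∧ R ≤ 1 ∧ ∀ y, x0 ≤ y → G y ≤ y → R ≤ y := by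
  have hb : ∀ y, x0 ≤ y → G y ≤ y → ∀ n, G^[n] x0 ≤ y := by
    intro y hy hGy n
    induction n with
    | zero => exact hy
    | succ n ih => rw [Function.iterate_succ_apply']; exact (hm ih).trans hGy
  have hmono : Monotone fun n => G^[n] x0 := hm.monotone_iterate_of_le_map h0
  have hbdd : ∀ s, BddAbove (Set.range fun n => G^[n] x0 s) := fun s =>
    ⟨1, by rintro _ ⟨n, rfl⟩; exact hb 1 h1 hG1 n s⟩
  have ht : Filter.Tendsto (fun n => G^[n] x0) Filter.atTop (nhds R) := by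
    rw [tendsto_pi_nhds]
    intro s
    rw [hR s]
    exact tendsto_atTop_ciSup (fun a b hab => hmono hab s) (hbdd s)
  have hle : ∀ y, x0 ≤ y → G y ≤ y → R ≤ y := fun y hy hGy s => by
    rw [hR s]; exact ciSup_le fun n => hb y hy hGy n s
  refine ⟨?_, fun s => ?_, hle 1 h1 hG1, hle⟩
  · have h2 : Filter.Tendsto (fun n => G^[n + 1] x0) Filter.atTop (nhds R) :=
      (Filter.tendsto_add_atTop_iff_nat 1).2 ht
    have h3 : Filter.Tendsto (fun n => G (G^[n] x0)) Filter.atTop (nhds (G R)) :=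
      (hc.tendsto R).comp ht
    simp only [Function.iterate_succ_apply'] at h2
    exact tendsto_nhds_unique h3 h2
  · rw [hR s]; exact le_ciSup (hbdd s) 0

/-- the one-step reachability operator of a Markov chain -/
noncomputable def op {S : Type} [Fintype S] (T : Set S) (P : S → S → ℝ) (x : S → ℝ) : S → ℝ :=
  T.indicator (fun _ => (1 : ℝ)) + Tᶜ.indicator (fun s => ∑ t, P s t * x t)

lemma op_mem {S : Type} [Fintype S] {T : Set S} (P : S → S → ℝ) (x : S → ℝ) {s : S}
    (h : s ∈ T) : op T P x s = 1 := by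
  simp [op, h]

lemma op_not_mem {S : Type} [Fintype S] {T : Set S} (P : S → S → ℝ) (x : S → ℝ) {s : S}
    (h : s ∉ T) : op T P x s = ∑ t, P s t * x t := by
  simp [op, h]

theorem reach {S : Type} [Fintype S] (T : Set S) (P : S → S → ℝ) (hP : ∀ s t, 0 ≤ P s t)
    (hP1 : ∀ s, ∑ t, P s t = 1) (R : S → ℝ) (hR : ∀ s, R s = ⨆ n : ℕ, (op T P)^[n] 0 s) :
    (∀ s ∈ T, R s = 1) ∧ (∀ s, s ∉ T → R s = ∑ t, P s t * R t) ∧ (∀ s, 0 ≤ R s) ∧
      (∀ s, R s ≤ 1) ∧
      ∀ y : S → ℝ, (∀ s, 0 ≤ y s) → (∀ s ∈ T, 1 ≤ y s) →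
        (∀ s, s ∉ T → ∑ t, P s t * y t ≤ y s) → ∀ s, R s ≤ y s := by
  have hm : Monotone (op T P) := fun x y hxy s => by
    by_cases h : s ∈ T
    · rw [op_mem P x h, op_mem P y h]
    · rw [op_not_mem P x h, op_not_mem P y h]
      exact Finset.sum_le_sum fun t _ => mul_le_mul_of_nonneg_left (hxy t) (hP s t)
  have hc : Continuous (op T P) := continuous_pi fun s => by
    by_cases h : s ∈ T
    · simp only [op_mem P _ h]; exact continuous_const
    · simp only [op_not_mem P _ h]; fun_prop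
  obtain ⟨h1, h2, h3, h4⟩ := lfp (op T P) hm hc 0 (fun s => by
      by_cases h : s ∈ T
      · rw [op_mem P _ h]; exact zero_le_one
      · rw [op_not_mem P _ h]; simp)
    (fun _ => zero_le_one) (fun s => by
      by_cases h : s ∈ T
      · rw [op_mem P _ h]; rfl
      · rw [op_not_mem P _ h]; simp [hP1 s]) R hR
  refine ⟨fun s h => ?_, fun s h => ?_, h2, h3, fun y hy hT hN => h4 y hy fun s => ?_⟩
  · rw [← h1, op_mem P _ h]
  · conv_lhs => rw [← h1, op_not_mem P _ h]
  · by_cases h : s ∈ T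
    · rw [op_mem P _ h]; exact hT s h
    · rw [op_not_mem P _ h]; exact hN s h

end Pool.Agent.Lib.Helper33.Lfp
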