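import Mathlib

set_option autoImplicit false

namespace Pool.Agent.Lib.Helper33.Odo

/-- First digit change rule, on integers not divisible by 16. -/
def t0 (y : ℤ) : ℤ :=
  if y % 2 = 1 then 2 * y else if y % 4 = 2 then 4 * y else if y % 8 = 4 then y else y / 8

/-- Second digit change rule, on integers not divisible by 16. -/
def t1 (y : ℤ) : ℤ :=
  if y % 2 = 1 then 2 * y else if y % 8 = 6 then y / 2 else if y % 8 = 2 then 2 * y
  else if y % 16 = 4 then y / 4 else y

/-- Inverse of `t0`. -/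
def s0 (y : ℤ) : ℤ :=
  if y % 2 = 1 then 8 * y else if y % 4 = 2 then y / 2 else if y % 8 = 4 then y else y / 4

/-- Inverse of `t1`. -/
def s1 (y : ℤ) : ℤ :=
  if y % 4 = 2 then y / 2 else if y % 4 = 3 then 2 * y else if y % 16 = 4 then y / 2
  else if y % 4 = 1 then 4 * y else y

lemma t0_s0 (y : ℤ) (h : y % 16 ≠ 0) : t0 (s0 y) = y ∧ s0 y % 16 ≠ 0 := by
  unfold s0
  split_ifs
  all_goals
    unfold t0
    repeat (first | rw [if_neg (by omega)] | rw [if_pos (by omega)])
    all_goals omega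

lemma s0_t0 (y : ℤ) (h : y % 16 ≠ 0) : s0 (t0 y) = y ∧ t0 y % 16 ≠ 0 := by
  unfold t0
  split_ifs
  all_goals
    unfold s0
    repeat (first | rw [if_neg (by omega)] | rw [if_pos (by omega)])
    all_goals omega

lemma t1_s1 (y : ℤ) (h : y % 16 ≠ 0) : t1 (s1 y) = y ∧ s1 y % 16 ≠ 0 := by
  unfold s1
  split_ifs
  all_goals
    unfold t1
    repeat (first | rw [if_neg (by omega)] | rw [if_pos (by omega)])
    all_goals omega

lemma s1_t1 (y : ℤ) (h : y % 16 ≠ 0) : s1 (t1 y) = y ∧ t1 y % 16 ≠ 0 := by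
  unfold t1
  split_ifs
  all_goals
    unfold s1
    repeat (first | rw [if_neg (by omega)] | rw [if_pos (by omega)])
    all_goals omega

/-- The machine: state 0 is the main state, 1 and 2 go down, 3 and 4 go up. -/
def G : ℕ × ℤ → ℕ × ℤ
  | (0, y) => if y % 3 ≠ 0 ∧ y % 5 ≠ 0 then (1, y + 60) else (0, y)
  | (1, y) => if y % 16 = 0 then (if y % 9 = 0 then (1, y / 144 * 3125) else (2, y / 16 * 5))
      else (3, t0 y)
  | (2, y) => if y % 16 = 0 then (if y % 5 = 0 then (2, y / 80 * 59049) else (1, y / 16 * 9))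
      else (4, t1 y)
  | (3, y) => if y % 3125 = 0 then (3, y / 3125 * 144)
      else if y % 5 ≠ 0 ∧ y % 9 = 0 then (4, y / 9 * 16)
      else if y % 3 ≠ 0 ∧ y % 5 ≠ 0 then (0, y) else (1, y)
  | (4, y) => if y % 59049 = 0 then (4, y / 59049 * 80)
      else if y % 9 ≠ 0 ∧ y % 5 = 0 then (3, y / 5 * 16) else (2, y)
  | (s + 5, y) => (s + 5, y)

/-- The inverse machine. -/
def H : ℕ × ℤ → ℕ × ℤ
  | (0, y) => if y % 3 ≠ 0 ∧ y % 5 ≠ 0 then (3, y) else (0, y)
  | (1, y) => if y % 3125 = 0 then (1, y / 3125 * 144)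
      else if y % 5 ≠ 0 ∧ y % 9 = 0 then (2, y / 9 * 16)
      else if y % 3 ≠ 0 ∧ y % 5 ≠ 0 then (0, y - 60) else (3, y)
  | (2, y) => if y % 59049 = 0 then (2, y / 59049 * 80)
      else if y % 9 ≠ 0 ∧ y % 5 = 0 then (1, y / 5 * 16) else (4, y)
  | (3, y) => if y % 16 = 0 then (if y % 9 = 0 then (3, y / 144 * 3125) else (4, y / 16 * 5))
      else (1, s0 y)
  | (4, y) => if y % 16 = 0 then (if y % 5 = 0 then (4, y / 80 * 59049) else (3, y / 16 * 9))
      else (2, s1 y)
  | (s + 5, y) => (s + 5, y)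

lemma G_H (c : ℕ × ℤ) : G (H c) = c := by
  obtain ⟨s, y⟩ := c
  match s with
  | 0 =>
    simp only [H]
    split_ifs
    all_goals
      simp only [G]
      repeat (first | rw [if_neg (by omega)] | rw [if_pos (by omega)])
      all_goals (congr 1; omega)
  | 1 =>
    simp only [H]
    split_ifs
    all_goals
      simp only [G]
      repeat (first | rw [if_neg (by omega)] | rw [if_pos (by omega)])
      all_goals (congr 1; omega)
  | 2 =>
    simp only [H]
    split_ifs
    all_goals
      simp only [G]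
      repeat (first | rw [if_neg (by omega)] | rw [if_pos (by omega)])
      all_goals (congr 1; omega)
  | 3 =>
    simp only [H]
    split_ifs with h1 h2
    · simp only [G]
      repeat (first | rw [if_neg (by omega)] | rw [if_pos (by omega)])
      all_goals (congr 1; omega)
    · simp only [G]
      repeat (first | rw [if_neg (by omega)] | rw [if_pos (by omega)])
      all_goals (congr 1; omega)
    · simp only [G]; rw [if_neg (t0_s0 y h1).2, (t0_s0 y h1).1]
  | 4 =>
    simp only [H]
    split_ifs with h1 h2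
    · simp only [G]
      repeat (first | rw [if_neg (by omega)] | rw [if_pos (by omega)])
      all_goals (congr 1; omega)
    · simp only [G]
      repeat (first | rw [if_neg (by omega)] | rw [if_pos (by omega)])
      all_goals (congr 1; omega)
    · simp only [G]; rw [if_neg (t1_s1 y h1).2, (t1_s1 y h1).1]
  | s + 5 => rfl

lemma H_G (c : ℕ × ℤ) : H (G c) = c := by
  obtain ⟨s, y⟩ := c
  match s with
  | 0 =>
    simp only [G]
    split_ifs
    all_goals
      simp only [H]
      repeat (first | rw [if_neg (by omega)] | rw [if_pos (by omega)])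
      all_goals (congr 1; omega)
  | 1 =>
    simp only [G]
    split_ifs with h1 h2
    · simp only [H]
      repeat (first | rw [if_neg (by omega)] | rw [if_pos (by omega)])
      all_goals (congr 1; omega)
    · simp only [H]
      repeat (first | rw [if_neg (by omega)] | rw [if_pos (by omega)])
      all_goals (congr 1; omega)
    · simp only [H]; rw [if_neg (s0_t0 y h1).2, (s0_t0 y h1).1]
  | 2 =>
    simp only [G]
    split_ifs with h1 h2
    · simp only [H]
      repeat (first | rw [if_neg (by omega)] | rw [if_pos (by omega)])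
      all_goals (congr 1; omega)
    · simp only [H]
      repeat (first | rw [if_neg (by omega)] | rw [if_pos (by omega)])
      all_goals (congr 1; omega)
    · simp only [H]; rw [if_neg (s1_t1 y h1).2, (s1_t1 y h1).1]
  | 3 =>
    simp only [G]
    split_ifs
    all_goals
      simp only [H]
      repeat (first | rw [if_neg (by omega)] | rw [if_pos (by omega)])
      all_goals (congr 1; omega)
  | 4 =>
    simp only [G]
    split_ifs
    all_goals
      simp only [H]
      repeat (first | rw [if_neg (by omega)] | rw [if_pos (by omega)])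
      all_goals (congr 1; omega)
  | s + 5 => rfl

lemma G_le (c : ℕ × ℤ) (h : c.1 ≤ 4) : (G c).1 ≤ 4 := by
  obtain ⟨s, y⟩ := c
  simp only at h
  interval_cases s <;> simp only [G] <;> split_ifs <;> simp

lemma H_le (c : ℕ × ℤ) (h : c.1 ≤ 4) : (H c).1 ≤ 4 := by
  obtain ⟨s, y⟩ := c
  simp only at h
  interval_cases s <;> simp only [H] <;> split_ifs <;> simp

/-- Encoding of configurations as integers. -/
def enc (c : ℕ × ℤ) : ℤ :=
  if c.1 = 0 then 2 * c.2 else if c.1 ≤ 4 then 4096 * c.2 + (2 * c.1 - 1) else c.2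

/-- Decoding of integers. -/
def dec (n : ℤ) : ℕ × ℤ :=
  if n % 2 = 0 then (0, n / 2) else if n % 4096 = 1 then (1, n / 4096)
  else if n % 4096 = 3 then (2, n / 4096) else if n % 4096 = 5 then (3, n / 4096)
  else if n % 4096 = 7 then (4, n / 4096) else (5, n)

lemma enc_dec (n : ℤ) : enc (dec n) = n := by
  unfold dec; split_ifs <;> simp [enc] <;> omega

lemma dec_enc (c : ℕ × ℤ) (h : c.1 ≤ 4) : dec (enc c) = c := by
  obtain ⟨s, y⟩ := c
  simp only at h
  interval_cases s
  all_goals
    simp only [enc]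
    norm_num
    unfold dec
    repeat (first | rw [if_neg (by omega)] | rw [if_pos (by omega)])
    all_goals (congr 1; omega)

lemma dec_cases (n : ℤ) : (dec n).1 ≤ 4 ∨ dec n = (5, n) := by
  unfold dec; split_ifs <;> simp

/-- The permutation of the integers. -/
def g (n : ℤ) : ℤ := enc (G (dec n))

/-- Its inverse. -/
def h (n : ℤ) : ℤ := enc (H (dec n))

lemma g_h (n : ℤ) : g (h n) = n := by
  unfold g h
  rcases dec_cases n with hn | hn
  · rw [dec_enc _ (H_le _ hn), G_H, enc_dec]
  · have e : H (dec n) = dec n := by rw [hn]; rfl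
    have e' : G (dec n) = dec n := by rw [hn]; rfl
    rw [e, enc_dec, e', enc_dec]

lemma h_g (n : ℤ) : h (g n) = n := by
  unfold g h
  rcases dec_cases n with hn | hn
  · rw [dec_enc _ (G_le _ hn), H_G, enc_dec]
  · have e : H (dec n) = dec n := by rw [hn]; rfl
    have e' : G (dec n) = dec n := by rw [hn]; rfl
    rw [e', enc_dec, e, enc_dec]

lemma g_bij : Function.Bijective g :=
  Function.bijective_iff_has_inverse.mpr ⟨h, h_g, g_h⟩

lemma g_enc (c : ℕ × ℤ) (hc : c.1 ≤ 4) : g (enc c) = enc (G c) := by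
  unfold g; rw [dec_enc _ hc]

lemma t0_shift (y : ℤ) : ∃ c : ℤ, ∀ k : ℤ, t0 (y + 16 * k) = t0 y + c * k := by
  by_cases h1 : y % 2 = 1
  · refine ⟨32, fun k => ?_⟩
    unfold t0
    repeat (first | rw [if_neg (by omega)] | rw [if_pos (by omega)])
    all_goals omega
  by_cases h2 : y % 4 = 2
  · refine ⟨64, fun k => ?_⟩
    unfold t0
    repeat (first | rw [if_neg (by omega)] | rw [if_pos (by omega)])
    all_goals omega
  by_cases h3 : y % 8 = 4
  · refine ⟨16, fun k => ?_⟩
    unfold t0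
    repeat (first | rw [if_neg (by omega)] | rw [if_pos (by omega)])
    all_goals omega
  · refine ⟨2, fun k => ?_⟩
    unfold t0
    repeat (first | rw [if_neg (by omega)] | rw [if_pos (by omega)])
    all_goals omega

lemma t1_shift (y : ℤ) : ∃ c : ℤ, ∀ k : ℤ, t1 (y + 16 * k) = t1 y + c * k := by
  by_cases h1 : y % 2 = 1
  · refine ⟨32, fun k => ?_⟩
    unfold t1
    repeat (first | rw [if_neg (by omega)] | rw [if_pos (by omega)])
    all_goals omega
  by_cases h2 : y % 8 = 6
  · refine ⟨8, fun k => ?_⟩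
    unfold t1
    repeat (first | rw [if_neg (by omega)] | rw [if_pos (by omega)])
    all_goals omega
  by_cases h3 : y % 8 = 2
  · refine ⟨32, fun k => ?_⟩
    unfold t1
    repeat (first | rw [if_neg (by omega)] | rw [if_pos (by omega)])
    all_goals omega
  by_cases h4 : y % 16 = 4
  · refine ⟨4, fun k => ?_⟩
    unfold t1
    repeat (first | rw [if_neg (by omega)] | rw [if_pos (by omega)])
    all_goals omega
  · refine ⟨16, fun k => ?_⟩
    unfold t1
    repeat (first | rw [if_neg (by omega)] | rw [if_pos (by omega)])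
    all_goals omega

lemma G_shift (s : ℕ) (y : ℤ) : ∃ c : ℤ, ∀ k : ℤ,
    G (s, y + 2952450000 * k) = ((G (s, y)).1, (G (s, y)).2 + c * k) := by
  have e3 : ∀ k : ℤ, (y + 2952450000 * k) % 3 = y % 3 := fun k => by omega
  have e5 : ∀ k : ℤ, (y + 2952450000 * k) % 5 = y % 5 := fun k => by omega
  have e9 : ∀ k : ℤ, (y + 2952450000 * k) % 9 = y % 9 := fun k => by omega
  have e16 : ∀ k : ℤ, (y + 2952450000 * k) % 16 = y % 16 := fun k => by omega
  have ea : ∀ k : ℤ, (y + 2952450000 * k) % 3125 = y % 3125 := fun k => by omega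
  have eb : ∀ k : ℤ, (y + 2952450000 * k) % 59049 = y % 59049 := fun k => by omega
  have es : ∀ k : ℤ, y + 2952450000 * k = y + 16 * (184528125 * k) := fun k => by ring
  match s with
  | 0 =>
    simp only [G, e3, e5]
    split_ifs
    · exact ⟨2952450000, fun k => by simp only [Prod.mk.injEq, true_and]; ring⟩
    · exact ⟨2952450000, fun k => rfl⟩
  | 1 =>
    simp only [G, e9, e16]
    split_ifs
    · exact ⟨20503125 * 3125, fun k => by simp only [Prod.mk.injEq, true_and]; omega⟩
    · exact ⟨184528125 * 5, fun k => by simp only [Prod.mk.injEq, true_and]; omega⟩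
    · obtain ⟨c, hc⟩ := t0_shift y
      exact ⟨c * 184528125, fun k => by rw [es, hc, mul_assoc]⟩
  | 2 =>
    simp only [G, e5, e16]
    split_ifs
    · exact ⟨36905625 * 59049, fun k => by simp only [Prod.mk.injEq, true_and]; omega⟩
    · exact ⟨184528125 * 9, fun k => by simp only [Prod.mk.injEq, true_and]; omega⟩
    · obtain ⟨c, hc⟩ := t1_shift y
      exact ⟨c * 184528125, fun k => by rw [es, hc, mul_assoc]⟩
  | 3 =>
    simp only [G, e3, e5, e9, ea]
    split_ifs
    · exact ⟨944784 * 144, fun k => by simp only [Prod.mk.injEq, true_and]; omega⟩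
    · exact ⟨328050000 * 16, fun k => by simp only [Prod.mk.injEq, true_and]; omega⟩
    · exact ⟨2952450000, fun k => rfl⟩
    · exact ⟨2952450000, fun k => rfl⟩
  | 4 =>
    simp only [G, e5, e9, eb]
    split_ifs
    · exact ⟨50000 * 80, fun k => by simp only [Prod.mk.injEq, true_and]; omega⟩
    · exact ⟨590490000 * 16, fun k => by simp only [Prod.mk.injEq, true_and]; omega⟩
    · exact ⟨2952450000, fun k => rfl⟩
  | s + 5 => exact ⟨2952450000, fun k => rfl⟩

lemma enc_shift (s : ℕ) : ∃ c : ℤ, ∀ y k : ℤ, enc (s, y + k) = enc (s, y) + c * k := by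
  unfold enc
  simp only
  split_ifs
  · exact ⟨2, fun y k => by ring⟩
  · exact ⟨4096, fun y k => by ring⟩
  · exact ⟨1, fun y k => by ring⟩

lemma dec_shift (n : ℤ) : ∃ c : ℤ, ∀ k : ℤ,
    dec (n + 4096 * k) = ((dec n).1, (dec n).2 + c * k) := by
  have e2 : ∀ k : ℤ, (n + 4096 * k) % 2 = n % 2 := fun k => by omega
  have e4 : ∀ k : ℤ, (n + 4096 * k) % 4096 = n % 4096 := fun k => by omega
  simp only [dec, e2, e4]
  split_ifs
  · exact ⟨2048, fun k => by simp only [Prod.mk.injEq, true_and]; omega⟩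
  · exact ⟨1, fun k => by simp only [Prod.mk.injEq, true_and]; omega⟩
  · exact ⟨1, fun k => by simp only [Prod.mk.injEq, true_and]; omega⟩
  · exact ⟨1, fun k => by simp only [Prod.mk.injEq, true_and]; omega⟩
  · exact ⟨1, fun k => by simp only [Prod.mk.injEq, true_and]; omega⟩
  · exact ⟨4096, fun k => rfl⟩

lemma g_shift (n : ℤ) : ∃ c : ℤ, ∀ k : ℤ,
    g (n + ((4096 * 2952450000 : ℕ) : ℤ) * k) = g n + c * k := by
  obtain ⟨c1, h1⟩ := dec_shift n
  obtain ⟨c2, h2⟩ := G_shift (dec n).1 (dec n).2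
  obtain ⟨c3, h3⟩ := enc_shift (G (dec n)).1
  refine ⟨c3 * c2 * c1, fun k => ?_⟩
  unfold g
  rw [show n + ((4096 * 2952450000 : ℕ) : ℤ) * k = n + 4096 * (2952450000 * k) by push_cast; ring,
    h1, show c1 * (2952450000 * k) = 2952450000 * (c1 * k) by ring, h2, h3]
  ring

lemma affine_of_shift (f : ℤ → ℤ) (m : ℕ) (hm : 0 < m)
    (hf : ∀ n : ℤ, ∃ c : ℤ, ∀ k : ℤ, f (n + (m : ℤ) * k) = f n + c * k) :
    ∃ a b : ℕ → ℚ, ∀ n : ℤ,
      (f n : ℚ) = a (n % (m : ℤ)).toNat * (n : ℚ) + b (n % (m : ℤ)).toNat := by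
  choose c hc using hf
  refine ⟨fun r => (c r : ℚ) / m, fun r => (f r : ℚ) - (c r : ℚ) / m * r, fun n => ?_⟩
  have hm' : (m : ℤ) ≠ 0 := by exact_mod_cast hm.ne'
  have h0 : (((n % (m : ℤ)).toNat : ℕ) : ℤ) = n % (m : ℤ) :=
    Int.toNat_of_nonneg (Int.emod_nonneg n hm')
  have h1 := hc (n % (m : ℤ)) (n / m)
  rw [Int.emod_add_mul_ediv] at h1
  have h2 : (n : ℚ) = ((n % (m : ℤ) : ℤ) : ℚ) + (m : ℚ) * ((n / m : ℤ) : ℚ) := by
    exact_mod_cast (Int.emod_add_mul_ediv n m).symm
  have h3 : (((n % (m : ℤ)).toNat : ℕ) : ℚ) = ((n % (m : ℤ) : ℤ) : ℚ) := by exact_mod_cast h0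
  have hm'' : (m : ℚ) ≠ 0 := by exact_mod_cast hm.ne'
  simp only [h0, h3]
  rw [h1]
  push_cast
  generalize ((n % (m : ℤ) : ℤ) : ℚ) = r at h2 ⊢
  rw [h2]
  field_simp
  ring

end Pool.Agent.Lib.Helper33.Odo
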