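import Pool.Agent.Lib.Helper33.OdoA

set_option autoImplicit false

namespace Pool.Agent.Lib.Helper33.Odo

/-- Removing the lowest digit, in the two digit systems. -/
def pop : Bool → ℤ → ℤ
  | false, x => if x % 2 = 1 then (x - 15) / 2 else if x % 4 = 2 then (x - 150) / 4
      else if x % 16 = 0 then x / 16 else if x % 16 = 12 then (x - 60) / 16
      else if x % 16 = 8 then (x - 840) / 16 else (x - 900) / 16
  | true, x => if x % 4 = 1 then (x - 45) / 4 else if x % 4 = 3 then (x - 135) / 4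
      else if x % 8 = 2 then (x - 210) / 8 else if x % 8 = 6 then (x - 390) / 8
      else if x % 16 = 0 then x / 16 else if x % 16 = 12 then (x - 60) / 16
      else if x % 16 = 8 then (x - 120) / 16 else (x - 900) / 16

/-- The digit change rule of each system. -/
def tau : Bool → ℤ → ℤ
  | false, y => t0 y
  | true, y => t1 y

/-- One step of the clock. -/
def cstep : Bool × ℕ × ℕ → Bool × ℕ × ℕ
  | (false, 0, C) => (true, 0, C + 1)
  | (false, B + 1, C) => (false, B, C + 5)
  | (true, B, 0) => (false, B + 1, 0)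
  | (true, B, C + 1) => (true, B + 5, C)

/-- The clock. -/
def ck : ℕ → Bool × ℕ × ℕ
  | 0 => (false, 0, 0)
  | j + 1 => cstep (ck j)

/-- The digit system used at level `j`. -/
def ph (j : ℕ) : Bool := (ck j).1

/-- Going down configuration. -/
def Dc (c : Bool × ℕ × ℕ) (y : ℤ) : ℕ × ℤ := (if c.1 then 2 else 1, 9 ^ c.2.1 * 5 ^ c.2.2 * y)

/-- Going up configuration. -/
def Uc (c : Bool × ℕ × ℕ) (y : ℤ) : ℕ × ℤ := (if c.1 then 4 else 3, 9 ^ c.2.1 * 5 ^ c.2.2 * y)

/-- Coprime to 15. -/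
def cop (y : ℤ) : Prop := y % 3 ≠ 0 ∧ y % 5 ≠ 0

lemma not3 (C : ℕ) (y : ℤ) (h : y % 3 ≠ 0) : (5 ^ C * y) % 3 ≠ 0 := by
  intro h1
  rcases (Int.prime_three.dvd_or_dvd (Int.dvd_of_emod_eq_zero h1)) with h2 | h2
  · have := Int.prime_three.dvd_of_dvd_pow h2
    omega
  · omega

lemma not5 (B : ℕ) (y : ℤ) (h : y % 5 ≠ 0) : (9 ^ B * y) % 5 ≠ 0 := by
  have p5 : Prime (5 : ℤ) := Int.prime_iff_natAbs_prime.mpr (by norm_num)
  intro h1
  rcases (p5.dvd_or_dvd (Int.dvd_of_emod_eq_zero h1)) with h2 | h2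
  · have := p5.dvd_of_dvd_pow h2
    omega
  · omega

lemma G_D_down (c : Bool × ℕ × ℕ) (y : ℤ) (hy : cop y) : G (Dc c (16 * y)) = Dc (cstep c) y := by
  obtain ⟨p, B, C⟩ := c
  cases p
  · cases B with
    | zero =>
      have h3 := not3 C y hy.1
      have e1 : Dc (false, 0, C) (16 * y) = (1, 16 * (5 ^ C * y)) := by simp [Dc]; ring
      have e2 : Dc (cstep (false, 0, C)) y = (2, 5 * (5 ^ C * y)) := by simp [Dc, cstep]; ring
      rw [e1, e2]
      generalize 5 ^ C * y = z at h3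
      simp only [G]
      repeat (first | rw [if_neg (by omega)] | rw [if_pos (by omega)])
      all_goals (congr 1; omega)
    | succ B =>
      have e1 : Dc (false, B + 1, C) (16 * y) = (1, 144 * (9 ^ B * 5 ^ C * y)) := by
        simp [Dc]; ring
      have e2 : Dc (cstep (false, B + 1, C)) y = (1, 3125 * (9 ^ B * 5 ^ C * y)) := by
        simp [Dc, cstep]; ring
      rw [e1, e2]
      generalize 9 ^ B * 5 ^ C * y = z
      simp only [G]
      repeat (first | rw [if_neg (by omega)] | rw [if_pos (by omega)])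
      all_goals (congr 1; omega)
  · cases C with
    | zero =>
      have h5 := not5 B y hy.2
      have e1 : Dc (true, B, 0) (16 * y) = (2, 16 * (9 ^ B * y)) := by simp [Dc]; ring
      have e2 : Dc (cstep (true, B, 0)) y = (1, 9 * (9 ^ B * y)) := by simp [Dc, cstep]; ring
      rw [e1, e2]
      generalize 9 ^ B * y = z at h5
      simp only [G]
      repeat (first | rw [if_neg (by omega)] | rw [if_pos (by omega)])
      all_goals (congr 1; omega)
    | succ C =>
      have e1 : Dc (true, B, C + 1) (16 * y) = (2, 80 * (9 ^ B * 5 ^ C * y)) := by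
        simp [Dc]; ring
      have e2 : Dc (cstep (true, B, C + 1)) y = (2, 59049 * (9 ^ B * 5 ^ C * y)) := by
        simp [Dc, cstep]; ring
      rw [e1, e2]
      generalize 9 ^ B * 5 ^ C * y = z
      simp only [G]
      repeat (first | rw [if_neg (by omega)] | rw [if_pos (by omega)])
      all_goals (congr 1; omega)

lemma G_U_up (c : Bool × ℕ × ℕ) (y : ℤ) (hy : cop y) : G (Uc (cstep c) y) = Uc c (16 * y) := by
  obtain ⟨p, B, C⟩ := c
  cases p
  · cases B with
    | zero =>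
      have h3 := not3 C y hy.1
      have e1 : Uc (false, 0, C) (16 * y) = (3, 16 * (5 ^ C * y)) := by simp [Uc]; ring
      have e2 : Uc (cstep (false, 0, C)) y = (4, 5 * (5 ^ C * y)) := by simp [Uc, cstep]; ring
      rw [e1, e2]
      generalize 5 ^ C * y = z at h3
      simp only [G]
      repeat (first | rw [if_neg (by omega)] | rw [if_pos (by omega)])
      all_goals (congr 1; omega)
    | succ B =>
      have e1 : Uc (false, B + 1, C) (16 * y) = (3, 144 * (9 ^ B * 5 ^ C * y)) := by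
        simp [Uc]; ring
      have e2 : Uc (cstep (false, B + 1, C)) y = (3, 3125 * (9 ^ B * 5 ^ C * y)) := by
        simp [Uc, cstep]; ring
      rw [e1, e2]
      generalize 9 ^ B * 5 ^ C * y = z
      simp only [G]
      repeat (first | rw [if_neg (by omega)] | rw [if_pos (by omega)])
      all_goals (congr 1; omega)
  · cases C with
    | zero =>
      have h5 := not5 B y hy.2
      have e1 : Uc (true, B, 0) (16 * y) = (4, 16 * (9 ^ B * y)) := by simp [Uc]; ring
      have e2 : Uc (cstep (true, B, 0)) y = (3, 9 * (9 ^ B * y)) := by simp [Uc, cstep]; ring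
      rw [e1, e2]
      generalize 9 ^ B * y = z at h5
      simp only [G]
      repeat (first | rw [if_neg (by omega)] | rw [if_pos (by omega)])
      all_goals (congr 1; omega)
    | succ C =>
      have e1 : Uc (true, B, C + 1) (16 * y) = (4, 80 * (9 ^ B * 5 ^ C * y)) := by
        simp [Uc]; ring
      have e2 : Uc (cstep (true, B, C + 1)) y = (4, 59049 * (9 ^ B * 5 ^ C * y)) := by
        simp [Uc, cstep]; ring
      rw [e1, e2]
      generalize 9 ^ B * 5 ^ C * y = z
      simp only [G]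
      repeat (first | rw [if_neg (by omega)] | rw [if_pos (by omega)])
      all_goals (congr 1; omega)

lemma tau_mul (p : Bool) (r y : ℤ) (hr : r % 4 = 1) (hy : y % 16 ≠ 0) :
    tau p (r * y) = r * tau p y ∧ (r * y) % 16 ≠ 0 := by
  have key : ∀ u : ℤ, (r * u) % 4 = u % 4 := fun u => by
    rw [Int.mul_emod, hr, one_mul, Int.emod_emod_of_dvd _ (dvd_refl _)]
  have hcases : (∃ u, y = u ∧ u % 2 = 1) ∨ (∃ u, y = 2 * u ∧ u % 2 = 1) ∨
      (∃ u, y = 4 * u ∧ u % 2 = 1) ∨ (∃ u, y = 8 * u ∧ u % 2 = 1) := by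
    by_cases h1 : y % 2 = 1
    · exact Or.inl ⟨y, rfl, h1⟩
    by_cases h2 : y % 4 = 2
    · exact Or.inr (Or.inl ⟨y / 2, by omega, by omega⟩)
    by_cases h3 : y % 8 = 4
    · exact Or.inr (Or.inr (Or.inl ⟨y / 4, by omega, by omega⟩))
    · exact Or.inr (Or.inr (Or.inr ⟨y / 8, by omega, by omega⟩))
  have spec : ∀ u : ℤ, u % 2 = 1 → tau p u = 2 * u ∧
      tau p (2 * u) = (if p then (if u % 4 = 3 then 1 else 4) else 8) * u ∧
      tau p (4 * u) = (if p then (if u % 4 = 1 then 1 else 4) else 4) * u ∧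
      tau p (8 * u) = (if p then 8 else 1) * u := by
    intro u hu
    cases p
    · simp only [tau, t0, Bool.false_eq_true, if_false]
      refine ⟨?_, ?_, ?_, ?_⟩
      all_goals
        repeat (first | rw [if_neg (by omega)] | rw [if_pos (by omega)])
        all_goals omega
    · simp only [tau, t1, if_true]
      have h4 : u % 4 = 1 ∨ u % 4 = 3 := by omega
      rcases h4 with h4 | h4
      all_goals
        refine ⟨?_, ?_, ?_, ?_⟩
        all_goals
          repeat (first | rw [if_neg (by omega)] | rw [if_pos (by omega)])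
          all_goals omega
  rcases hcases with ⟨u, hyu, hu⟩ | ⟨u, rfl, hu⟩ | ⟨u, rfl, hu⟩ | ⟨u, rfl, hu⟩
  all_goals
    have k := key u
    have hu' : (r * u) % 2 = 1 := by omega
    obtain ⟨a1, a2, a3, a4⟩ := spec u hu
    obtain ⟨b1, b2, b3, b4⟩ := spec (r * u) hu'
    rw [k] at b2 b3
  · rw [hyu]
    exact ⟨by rw [a1, b1]; ring, by omega⟩
  · rw [show r * (2 * u) = 2 * (r * u) by ring]
    exact ⟨by rw [a2, b2]; ring, by omega⟩
  · rw [show r * (4 * u) = 4 * (r * u) by ring]
    exact ⟨by rw [a3, b3]; ring, by omega⟩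
  · rw [show r * (8 * u) = 8 * (r * u) by ring]
    exact ⟨by rw [a4, b4]; ring, by omega⟩

lemma rho_mod (B C : ℕ) : ((9 : ℤ) ^ B * 5 ^ C) % 4 = 1 := by
  have h9 : (9 : ℤ) ^ B ≡ 1 ^ B [ZMOD 4] := Int.ModEq.pow B (by decide)
  have h5 : (5 : ℤ) ^ C ≡ 1 ^ C [ZMOD 4] := Int.ModEq.pow C (by decide)
  have := h9.mul h5
  simpa [Int.ModEq] using this

lemma G_D_turn (c : Bool × ℕ × ℕ) (y : ℤ) (hy : y % 16 ≠ 0) :
    G (Dc c y) = Uc c (tau c.1 y) := by
  obtain ⟨p, B, C⟩ := c
  obtain ⟨h1, h2⟩ := tau_mul p _ y (rho_mod B C) hy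
  cases p
  · simp only [Dc, Uc, Bool.false_eq_true, if_false, G, if_neg h2]
    rw [← h1]; rfl
  · simp only [Dc, Uc, if_true, G, if_neg h2]
    rw [← h1]; rfl

lemma G_U_zero (y : ℤ) (hy : cop y) : G (Uc (ck 0) y) = (0, y) := by
  obtain ⟨h3, h5⟩ := hy
  have e : Uc (ck 0) y = (3, y) := by simp [Uc, ck]
  rw [e]
  simp only [G]
  rw [if_neg (by omega), if_neg (by omega), if_pos ⟨h3, h5⟩]

lemma G_main (y : ℤ) (hy : cop y) : G (0, y) = Dc (ck 0) (y + 60) := by
  have e : Dc (ck 0) (y + 60) = (1, y + 60) := by simp [Dc, ck]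
  rw [e]
  simp only [G]
  exact if_pos hy

/-- Iterated removal of digits, starting at level `j`. -/
def popIter : ℕ → ℕ → ℤ → ℤ
  | 0, _, w => w
  | n + 1, j, w => popIter n (j + 1) (pop (ph j) w)

/-- The tail class of `-4` at level `j`. -/
def Cl (j : ℕ) (w : ℤ) : Prop := ∃ n, popIter n j w = -4

lemma pop00 (w : ℤ) : pop false (16 * w) = w := by
  simp only [pop]
  repeat (first | rw [if_neg (by omega)] | rw [if_pos (by omega)])
  omega

lemma pop01 (w : ℤ) : pop false (16 * w + 60) = w := by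
  simp only [pop]
  repeat (first | rw [if_neg (by omega)] | rw [if_pos (by omega)])
  omega

lemma pop02 (w : ℤ) : pop false (2 * w + 15) = w := by
  simp only [pop]
  repeat (first | rw [if_neg (by omega)] | rw [if_pos (by omega)])
  omega

lemma pop03 (w : ℤ) : pop false (4 * w + 150) = w := by
  simp only [pop]
  repeat (first | rw [if_neg (by omega)] | rw [if_pos (by omega)])
  omega

lemma pop04 (w : ℤ) : pop false (16 * w + 840) = w := by
  simp only [pop]
  repeat (first | rw [if_neg (by omega)] | rw [if_pos (by omega)])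
  omega

lemma pop05 (w : ℤ) : pop false (16 * w + 900) = w := by
  simp only [pop]
  repeat (first | rw [if_neg (by omega)] | rw [if_pos (by omega)])
  omega

lemma tau00 (w : ℤ) : tau false (16 * w + 60) = 16 * w + 60 := by
  simp only [tau, t0]
  repeat (first | rw [if_neg (by omega)] | rw [if_pos (by omega)])
  all_goals omega

lemma tau01 (w : ℤ) : tau false (16 * w + 60 + 60) = 2 * w + 15 := by
  simp only [tau, t0]
  repeat (first | rw [if_neg (by omega)] | rw [if_pos (by omega)])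
  all_goals omega

lemma tau02 (w : ℤ) : tau false (2 * w + 15 + 60) = 4 * w + 150 := by
  simp only [tau, t0]
  repeat (first | rw [if_neg (by omega)] | rw [if_pos (by omega)])
  all_goals omega

lemma tau03 (w : ℤ) : tau false (4 * w + 150 + 60) = 16 * w + 840 := by
  simp only [tau, t0]
  repeat (first | rw [if_neg (by omega)] | rw [if_pos (by omega)])
  all_goals omega

lemma tau04 (w : ℤ) : tau false (16 * w + 840 + 60) = 16 * w + 900 := by
  simp only [tau, t0]
  repeat (first | rw [if_neg (by omega)] | rw [if_pos (by omega)])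
  all_goals omega

lemma form0 (x : ℤ) : ∃ w : ℤ, x = 16 * w ∨
      x = 16 * w + 60 ∨
      x = 2 * w + 15 ∨
      x = 4 * w + 150 ∨
      x = 16 * w + 840 ∨
      x = 16 * w + 900 := by
  have h : x % 16 = 0 ∨ x % 16 = 12 ∨ x % 2 = 1 ∨ x % 4 = 2 ∨ x % 16 = 8 ∨ x % 16 = 4 := by omega
  rcases h with h | h | h | h | h | h
  · exact ⟨(x - 0) / 16, Or.inl (by omega)⟩
  · exact ⟨(x - 60) / 16, Or.inr (Or.inl (by omega))⟩
  · exact ⟨(x - 15) / 2, Or.inr (Or.inr (Or.inl (by omega)))⟩
  · exact ⟨(x - 150) / 4, Or.inr (Or.inr (Or.inr (Or.inl (by omega))))⟩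
  · exact ⟨(x - 840) / 16, Or.inr (Or.inr (Or.inr (Or.inr (Or.inl (by omega)))))⟩
  · exact ⟨(x - 900) / 16, Or.inr (Or.inr (Or.inr (Or.inr (Or.inr ((by omega))))))⟩

lemma pop10 (w : ℤ) : pop true (16 * w) = w := by
  simp only [pop]
  repeat (first | rw [if_neg (by omega)] | rw [if_pos (by omega)])
  omega

lemma pop11 (w : ℤ) : pop true (16 * w + 60) = w := by
  simp only [pop]
  repeat (first | rw [if_neg (by omega)] | rw [if_pos (by omega)])
  omega

lemma pop12 (w : ℤ) : pop true (16 * w + 120) = w := by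
  simp only [pop]
  repeat (first | rw [if_neg (by omega)] | rw [if_pos (by omega)])
  omega

lemma pop13 (w : ℤ) : pop true (4 * w + 45) = w := by
  simp only [pop]
  repeat (first | rw [if_neg (by omega)] | rw [if_pos (by omega)])
  omega

lemma pop14 (w : ℤ) : pop true (8 * w + 210) = w := by
  simp only [pop]
  repeat (first | rw [if_neg (by omega)] | rw [if_pos (by omega)])
  omega

lemma pop15 (w : ℤ) : pop true (4 * w + 135) = w := by
  simp only [pop]
  repeat (first | rw [if_neg (by omega)] | rw [if_pos (by omega)])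
  omega

lemma pop16 (w : ℤ) : pop true (8 * w + 390) = w := by
  simp only [pop]
  repeat (first | rw [if_neg (by omega)] | rw [if_pos (by omega)])
  omega

lemma pop17 (w : ℤ) : pop true (16 * w + 900) = w := by
  simp only [pop]
  repeat (first | rw [if_neg (by omega)] | rw [if_pos (by omega)])
  omega

lemma tau10 (w : ℤ) : tau true (16 * w + 60) = 16 * w + 60 := by
  simp only [tau, t1]
  repeat (first | rw [if_neg (by omega)] | rw [if_pos (by omega)])
  all_goals omega

lemma tau11 (w : ℤ) : tau true (16 * w + 60 + 60) = 16 * w + 120 := by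
  simp only [tau, t1]
  repeat (first | rw [if_neg (by omega)] | rw [if_pos (by omega)])
  all_goals omega

lemma tau12 (w : ℤ) : tau true (16 * w + 120 + 60) = 4 * w + 45 := by
  simp only [tau, t1]
  repeat (first | rw [if_neg (by omega)] | rw [if_pos (by omega)])
  all_goals omega

lemma tau13 (w : ℤ) : tau true (4 * w + 45 + 60) = 8 * w + 210 := by
  simp only [tau, t1]
  repeat (first | rw [if_neg (by omega)] | rw [if_pos (by omega)])
  all_goals omega

lemma tau14 (w : ℤ) : tau true (8 * w + 210 + 60) = 4 * w + 135 := by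
  simp only [tau, t1]
  repeat (first | rw [if_neg (by omega)] | rw [if_pos (by omega)])
  all_goals omega

lemma tau15 (w : ℤ) : tau true (4 * w + 135 + 60) = 8 * w + 390 := by
  simp only [tau, t1]
  repeat (first | rw [if_neg (by omega)] | rw [if_pos (by omega)])
  all_goals omega

lemma tau16 (w : ℤ) : tau true (8 * w + 390 + 60) = 16 * w + 900 := by
  simp only [tau, t1]
  repeat (first | rw [if_neg (by omega)] | rw [if_pos (by omega)])
  all_goals omega

lemma form1 (x : ℤ) : ∃ w : ℤ, x = 16 * w ∨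
      x = 16 * w + 60 ∨
      x = 16 * w + 120 ∨
      x = 4 * w + 45 ∨
      x = 8 * w + 210 ∨
      x = 4 * w + 135 ∨
      x = 8 * w + 390 ∨
      x = 16 * w + 900 := by
  have h : x % 16 = 0 ∨ x % 16 = 12 ∨ x % 16 = 8 ∨ x % 4 = 1 ∨ x % 8 = 2 ∨ x % 4 = 3 ∨ x % 8 = 6 ∨ x % 16 = 4 := by omega
  rcases h with h | h | h | h | h | h | h | h
  · exact ⟨(x - 0) / 16, Or.inl (by omega)⟩
  · exact ⟨(x - 60) / 16, Or.inr (Or.inl (by omega))⟩
  · exact ⟨(x - 120) / 16, Or.inr (Or.inr (Or.inl (by omega)))⟩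
  · exact ⟨(x - 45) / 4, Or.inr (Or.inr (Or.inr (Or.inl (by omega))))⟩
  · exact ⟨(x - 210) / 8, Or.inr (Or.inr (Or.inr (Or.inr (Or.inl (by omega)))))⟩
  · exact ⟨(x - 135) / 4, Or.inr (Or.inr (Or.inr (Or.inr (Or.inr (Or.inl (by omega))))))⟩
  · exact ⟨(x - 390) / 8, Or.inr (Or.inr (Or.inr (Or.inr (Or.inr (Or.inr (Or.inl (by omega)))))))⟩
  · exact ⟨(x - 900) / 16, Or.inr (Or.inr (Or.inr (Or.inr (Or.inr (Or.inr (Or.inr ((by omega))))))))⟩

lemma pop_fix (p : Bool) : pop p (-4) = -4 := by cases p <;> decide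

lemma Cl_iff (j : ℕ) (w : ℤ) : Cl j w ↔ Cl (j + 1) (pop (ph j) w) := by
  constructor
  · rintro ⟨n, hn⟩
    cases n with
    | zero =>
      have : w = -4 := hn
      exact ⟨0, by rw [this, pop_fix]; rfl⟩
    | succ n => exact ⟨n, hn⟩
  · rintro ⟨n, hn⟩
    exact ⟨n + 1, hn⟩

lemma cop_pop (p : Bool) (x : ℤ) : cop (pop p x) ↔ cop x := by
  unfold cop
  cases p
  · obtain ⟨w, h⟩ := form0 x
    rcases h with rfl | rfl | rfl | rfl | rfl | rfl
    · rw [pop00]; exact and_congr (by omega) (by omega)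
    · rw [pop01]; exact and_congr (by omega) (by omega)
    · rw [pop02]; exact and_congr (by omega) (by omega)
    · rw [pop03]; exact and_congr (by omega) (by omega)
    · rw [pop04]; exact and_congr (by omega) (by omega)
    · rw [pop05]; exact and_congr (by omega) (by omega)
  · obtain ⟨w, h⟩ := form1 x
    rcases h with rfl | rfl | rfl | rfl | rfl | rfl | rfl | rfl
    · rw [pop10]; exact and_congr (by omega) (by omega)
    · rw [pop11]; exact and_congr (by omega) (by omega)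
    · rw [pop12]; exact and_congr (by omega) (by omega)
    · rw [pop13]; exact and_congr (by omega) (by omega)
    · rw [pop14]; exact and_congr (by omega) (by omega)
    · rw [pop15]; exact and_congr (by omega) (by omega)
    · rw [pop16]; exact and_congr (by omega) (by omega)
    · rw [pop17]; exact and_congr (by omega) (by omega)

lemma Cl_cop (j : ℕ) (w : ℤ) (h : Cl j w) : cop w := by
  obtain ⟨n, hn⟩ := h
  induction n generalizing j w with
  | zero =>
    have : w = -4 := hn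
    rw [this]; unfold cop; omega
  | succ n ih => exact (cop_pop _ _).mp (ih _ _ hn)

lemma pop_min (p : Bool) (w : ℤ) : pop p (16 * w) = w := by
  cases p
  exacts [pop00 w, pop10 w]

lemma pop_max (p : Bool) (w : ℤ) : pop p (16 * w + 900) = w := by
  cases p
  exacts [pop05 w, pop17 w]

lemma pop_tau (p : Bool) (x : ℤ) (h : (x + 60) % 16 ≠ 0) : pop p (tau p (x + 60)) = pop p x := by
  cases p
  · obtain ⟨w, h⟩ := form0 x
    rcases h with rfl | rfl | rfl | rfl | rfl | rfl
    · rw [tau00, pop00, pop01]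
    · rw [tau01, pop01, pop02]
    · rw [tau02, pop02, pop03]
    · rw [tau03, pop03, pop04]
    · rw [tau04, pop04, pop05]
    · omega
  · obtain ⟨w, h⟩ := form1 x
    rcases h with rfl | rfl | rfl | rfl | rfl | rfl | rfl | rfl
    · rw [tau10, pop10, pop11]
    · rw [tau11, pop11, pop12]
    · rw [tau12, pop12, pop13]
    · rw [tau13, pop13, pop14]
    · rw [tau14, pop14, pop15]
    · rw [tau15, pop15, pop16]
    · rw [tau16, pop16, pop17]
    · omega

lemma tau_surj (p : Bool) (w : ℤ) (h : w % 16 ≠ 0) :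
    ∃ x, (x + 60) % 16 ≠ 0 ∧ tau p (x + 60) = w := by
  cases p
  · refine ⟨s0 w - 60, ?_, ?_⟩ <;> rw [sub_add_cancel]
    · exact (t0_s0 w h).2
    · exact (t0_s0 w h).1
  · refine ⟨s1 w - 60, ?_, ?_⟩ <;> rw [sub_add_cancel]
    · exact (t1_s1 w h).2
    · exact (t1_s1 w h).1

/-- The invariant set of configurations. -/
def Inv (c : ℕ × ℤ) : Prop :=
  (∃ x, Cl 0 x ∧ c = (0, x)) ∨ (∃ j w, Cl j w ∧ c = Dc (ck j) (w + 60)) ∨
    (∃ j w, Cl j w ∧ c = Uc (ck j) w)

lemma cop_add (w : ℤ) (h : cop w) : cop (w + 60) := by unfold cop at *; omega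

lemma Inv_G (c : ℕ × ℤ) (h : Inv c) : Inv (G c) := by
  rcases h with ⟨x, hx, rfl⟩ | ⟨j, w, hw, rfl⟩ | ⟨j, w, hw, rfl⟩
  · exact Or.inr (Or.inl ⟨0, x, hx, G_main x (Cl_cop _ _ hx)⟩)
  · by_cases h16 : (w + 60) % 16 = 0
    · obtain ⟨v, rfl⟩ : ∃ v, w = 16 * v + 900 := ⟨(w - 900) / 16, by omega⟩
      have hv : Cl (j + 1) v := by simpa [pop_max] using (Cl_iff _ _).mp hw
      refine Or.inr (Or.inl ⟨j + 1, v, hv, ?_⟩)
      rw [show 16 * v + 900 + 60 = 16 * (v + 60) by ring,
        G_D_down _ _ (cop_add _ (Cl_cop _ _ hv))]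
      rfl
    · refine Or.inr (Or.inr ⟨j, tau (ph j) (w + 60), ?_, G_D_turn _ _ h16⟩)
      rw [Cl_iff, pop_tau _ _ h16, ← Cl_iff]
      exact hw
  · cases j with
    | zero => exact Or.inl ⟨w, hw, G_U_zero w (Cl_cop _ _ hw)⟩
    | succ j =>
      refine Or.inr (Or.inr ⟨j, 16 * w, ?_, G_U_up _ _ (Cl_cop _ _ hw)⟩)
      rw [Cl_iff, pop_min]
      exact hw

lemma Inv_pre (c : ℕ × ℤ) (h : Inv c) : ∃ c', Inv c' ∧ G c' = c := by
  rcases h with ⟨x, hx, rfl⟩ | ⟨j, w, hw, rfl⟩ | ⟨j, w, hw, rfl⟩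
  · exact ⟨_, Or.inr (Or.inr ⟨0, x, hx, rfl⟩), G_U_zero x (Cl_cop _ _ hx)⟩
  · cases j with
    | zero => exact ⟨_, Or.inl ⟨w, hw, rfl⟩, G_main w (Cl_cop _ _ hw)⟩
    | succ j =>
      refine ⟨_, Or.inr (Or.inl ⟨j, 16 * w + 900, ?_, rfl⟩), ?_⟩
      · rw [Cl_iff, pop_max]; exact hw
      · rw [show 16 * w + 900 + 60 = 16 * (w + 60) by ring,
          G_D_down _ _ (cop_add _ (Cl_cop _ _ hw))]
        rfl
  · by_cases h16 : w % 16 = 0
    · obtain ⟨v, rfl⟩ : ∃ v, w = 16 * v := ⟨w / 16, by omega⟩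
      have hv : Cl (j + 1) v := by simpa [pop_min] using (Cl_iff _ _).mp hw
      exact ⟨_, Or.inr (Or.inr ⟨j + 1, v, hv, rfl⟩), G_U_up _ _ (Cl_cop _ _ hv)⟩
    · obtain ⟨x, hx1, hx2⟩ := tau_surj (ph j) w h16
      refine ⟨_, Or.inr (Or.inl ⟨j, x, ?_, rfl⟩), ?_⟩
      · rw [Cl_iff, ← pop_tau _ _ hx1, hx2, ← Cl_iff]; exact hw
      · rw [G_D_turn _ _ hx1, ← hx2]; rfl

lemma Inv_le (c : ℕ × ℤ) (h : Inv c) : c.1 ≤ 4 := by
  rcases h with ⟨x, hx, rfl⟩ | ⟨j, w, hw, rfl⟩ | ⟨j, w, hw, rfl⟩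
  · simp
  · simp only [Dc]; split_ifs <;> norm_num
  · simp only [Uc]; split_ifs <;> norm_num

lemma Inv_main (x : ℤ) (h : Inv (0, x)) : Cl 0 x := by
  rcases h with ⟨y, hy, e⟩ | ⟨j, w, hw, e⟩ | ⟨j, w, hw, e⟩
  · obtain rfl : x = y := congrArg Prod.snd e
    exact hy
  · have := congrArg Prod.fst e
    simp only [Dc] at this
    split_ifs at this
  · have := congrArg Prod.fst e
    simp only [Uc] at this
    split_ifs at this

/-- Lying on the same two-sided orbit of `g`. -/
def Orb (a b : ℤ) : Prop := ∃ i : ℕ, g^[i] a = b ∨ g^[i] b = a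

lemma Orb.symm {a b : ℤ} (h : Orb a b) : Orb b a := by
  obtain ⟨i, h⟩ := h
  exact ⟨i, h.symm⟩

lemma Orb.refl (a : ℤ) : Orb a a := ⟨0, Or.inl rfl⟩

lemma Orb.trans {a b c : ℤ} (h1 : Orb a b) (h2 : Orb b c) : Orb a c := by
  have hinj : ∀ i, Function.Injective g^[i] := fun i => g_bij.1.iterate i
  obtain ⟨i, h1 | h1⟩ := h1 <;> obtain ⟨j, h2 | h2⟩ := h2
  · exact ⟨j + i, Or.inl (by rw [Function.iterate_add_apply, h1, h2])⟩
  · rcases le_total i j with hij | hij
    · obtain ⟨k, rfl⟩ := Nat.exists_eq_add_of_le hij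
      refine ⟨k, Or.inr (hinj i ?_)⟩
      rw [← Function.iterate_add_apply, h2, h1]
    · obtain ⟨k, rfl⟩ := Nat.exists_eq_add_of_le hij
      refine ⟨k, Or.inl (hinj j ?_)⟩
      rw [← Function.iterate_add_apply, h2, h1]
  · rcases le_total i j with hij | hij
    · obtain ⟨k, rfl⟩ := Nat.exists_eq_add_of_le hij
      refine ⟨k, Or.inl ?_⟩
      rw [← h1, ← Function.iterate_add_apply, add_comm, h2]
    · obtain ⟨k, rfl⟩ := Nat.exists_eq_add_of_le hij
      refine ⟨k, Or.inr ?_⟩
      rw [← h2, ← Function.iterate_add_apply, add_comm, h1]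
  · exact ⟨i + j, Or.inr (by rw [Function.iterate_add_apply, h2, h1])⟩

lemma orb_step (c : ℕ × ℤ) (hc : c.1 ≤ 4) : Orb (enc c) (enc (G c)) :=
  ⟨1, Or.inl (g_enc c hc)⟩

lemma Dc_le (c : Bool × ℕ × ℕ) (y : ℤ) : (Dc c y).1 ≤ 4 := by
  simp only [Dc]; split_ifs <;> norm_num

lemma Uc_le (c : Bool × ℕ × ℕ) (y : ℤ) : (Uc c y).1 ≤ 4 := by
  simp only [Uc]; split_ifs <;> norm_num

lemma orb_inv (n : ℤ) (h : Orb (enc (0, -4)) n) : ∃ c, Inv c ∧ n = enc c := by
  have h0 : Inv (0, -4) := Or.inl ⟨-4, ⟨0, rfl⟩, rfl⟩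
  obtain ⟨i, h | h⟩ := h
  · subst h
    induction i with
    | zero => exact ⟨_, h0, rfl⟩
    | succ i ih =>
      obtain ⟨c, hc, e⟩ := ih
      refine ⟨G c, Inv_G c hc, ?_⟩
      rw [Function.iterate_succ_apply', e, g_enc c (Inv_le c hc)]
  · induction i generalizing n with
    | zero => exact ⟨_, h0, h⟩
    | succ i ih =>
      obtain ⟨c, hc, e⟩ := ih (g n) h
      obtain ⟨c', hc', e'⟩ := Inv_pre c hc
      refine ⟨c', hc', g_bij.1 ?_⟩
      rw [e, g_enc c' (Inv_le c' hc'), e']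

lemma chain (j : ℕ)
    (K : ∀ w, cop w → Orb (enc (Uc (ck j) w)) (enc (Dc (ck j) (w + 60)))) (x : ℤ) (hx : cop x) :
    Orb (enc (Uc (ck j) x)) (enc (Uc (ck j) (16 * pop (ph j) x))) := by
  have step : ∀ a b : ℤ, cop a → (a + 60) % 16 ≠ 0 → tau (ph j) (a + 60) = b →
      Orb (enc (Uc (ck j) a)) (enc (Uc (ck j) b)) := by
    intro a b ha h16 hb
    have := orb_step _ (Dc_le (ck j) (a + 60))
    rw [G_D_turn _ _ h16] at this
    rw [← hb]
    exact (K a ha).trans this
  have hw := (cop_pop (ph j) x).mpr hx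
  have cp : ∀ a w : ℤ, cop w → pop (ph j) a = w → cop a := fun a w h1 h2 =>
    (cop_pop (ph j) a).mp (h2 ▸ h1)
  generalize ph j = p at step hw cp
  cases p
  · obtain ⟨w, h⟩ := form0 x
    have e : pop false x = w := by
      rcases h with rfl | rfl | rfl | rfl | rfl | rfl
      exacts [pop00 w, pop01 w, pop02 w, pop03 w, pop04 w, pop05 w]
    rw [e] at hw ⊢
    have s1 := step _ _ (cp _ w hw (pop00 w)) (by omega) (tau00 w)
    have s2 := s1.trans <| step _ _ (cp _ w hw (pop01 w)) (by omega) (tau01 w)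
    have s3 := s2.trans <| step _ _ (cp _ w hw (pop02 w)) (by omega) (tau02 w)
    have s4 := s3.trans <| step _ _ (cp _ w hw (pop03 w)) (by omega) (tau03 w)
    have s5 := s4.trans <| step _ _ (cp _ w hw (pop04 w)) (by omega) (tau04 w)
    rcases h with rfl | rfl | rfl | rfl | rfl | rfl
    exacts [Orb.refl _, s1.symm, s2.symm, s3.symm, s4.symm, s5.symm]
  · obtain ⟨w, h⟩ := form1 x
    have e : pop true x = w := by
      rcases h with rfl | rfl | rfl | rfl | rfl | rfl | rfl | rfl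
      exacts [pop10 w, pop11 w, pop12 w, pop13 w, pop14 w, pop15 w, pop16 w, pop17 w]
    rw [e] at hw ⊢
    have s1 := step _ _ (cp _ w hw (pop10 w)) (by omega) (tau10 w)
    have s2 := s1.trans <| step _ _ (cp _ w hw (pop11 w)) (by omega) (tau11 w)
    have s3 := s2.trans <| step _ _ (cp _ w hw (pop12 w)) (by omega) (tau12 w)
    have s4 := s3.trans <| step _ _ (cp _ w hw (pop13 w)) (by omega) (tau13 w)
    have s5 := s4.trans <| step _ _ (cp _ w hw (pop14 w)) (by omega) (tau14 w)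
    have s6 := s5.trans <| step _ _ (cp _ w hw (pop15 w)) (by omega) (tau15 w)
    have s7 := s6.trans <| step _ _ (cp _ w hw (pop16 w)) (by omega) (tau16 w)
    rcases h with rfl | rfl | rfl | rfl | rfl | rfl | rfl | rfl
    exacts [Orb.refl _, s1.symm, s2.symm, s3.symm, s4.symm, s5.symm, s6.symm, s7.symm]

lemma up (j : ℕ) (w : ℤ) (hw : cop w) :
    Orb (enc (Uc (ck (j + 1)) w)) (enc (Uc (ck j) (16 * w))) := by
  have := orb_step _ (Uc_le (ck (j + 1)) w)
  rwa [show ck (j + 1) = cstep (ck j) from rfl, G_U_up _ _ hw] at this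

lemma orbK (j : ℕ) : ∀ w, cop w → Orb (enc (Uc (ck j) w)) (enc (Dc (ck j) (w + 60))) := by
  induction j with
  | zero =>
    intro w hw
    have h1 := orb_step _ (Uc_le (ck 0) w)
    rw [G_U_zero w hw] at h1
    have h2 := orb_step (0, w) (by simp)
    rw [G_main w hw] at h2
    exact h1.trans h2
  | succ j ih =>
    intro w hw
    have hw' : cop (16 * w + 900) := by unfold cop at *; omega
    have h1 := chain j ih _ hw'
    rw [pop_max] at h1
    have h2 := ih _ hw'
    have h3 := orb_step _ (Dc_le (ck j) (16 * (w + 60)))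
    rw [G_D_down _ _ (cop_add _ hw)] at h3
    rw [show 16 * w + 900 + 60 = 16 * (w + 60) by ring] at h2
    exact (up j w hw).trans (h1.symm.trans (h2.trans h3))

lemma orbU (j : ℕ) (x : ℤ) (hx : cop x) :
    Orb (enc (Uc (ck j) x)) (enc (Uc (ck (j + 1)) (pop (ph j) x))) :=
  (chain j (orbK j) x hx).trans (up j _ ((cop_pop _ _).mpr hx)).symm

lemma orb_of_Cl (x : ℤ) (hx : Cl 0 x) : Orb (enc (0, -4)) (enc (0, x)) := by
  have c4 : cop (-4) := by unfold cop; omega
  have h1 : ∀ n j w, popIter n j w = -4 →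
      Orb (enc (Uc (ck j) w)) (enc (Uc (ck j) (-4))) := by
    intro n
    induction n with
    | zero => intro j w h; rw [show w = -4 from h]; exact Orb.refl _
    | succ n ih =>
      intro j w h
      have h2 := orbU j (-4) c4
      rw [pop_fix] at h2
      exact (orbU j w (Cl_cop j w ⟨n + 1, h⟩)).trans ((ih _ _ h).trans h2.symm)
  have h2 : ∀ w, cop w → Orb (enc (Uc (ck 0) w)) (enc (0, w)) := by
    intro w hw
    have := orb_step _ (Uc_le (ck 0) w)
    rwa [G_U_zero w hw] at this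
  obtain ⟨n, hn⟩ := hx
  exact (h2 _ c4).symm.trans ((h1 n 0 x hn).symm.trans (h2 x (Cl_cop 0 x ⟨n, hn⟩)))

end Pool.Agent.Lib.Helper33.Odo
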