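import Pool.Agent.Lib.Helper33.OdoB
import Pool.Agent.Lib.Helper33.Chk

set_option autoImplicit false
open Finset

namespace Pool.Agent.Lib.Helper33.Odo

open Classical in
/-- The elements of the level `j` class in an interval. -/
noncomputable def FC (j : ℕ) (lo hi : ℤ) : Finset ℤ := (Icc lo hi).filter (Cl j)

lemma mem_FC (j : ℕ) (lo hi x : ℤ) : x ∈ FC j lo hi ↔ lo ≤ x ∧ x ≤ hi ∧ Cl j x := by
  simp [FC, and_assoc]

/-- Upper counting function. -/
noncomputable def UU (j : ℕ) (N : ℤ) : ℕ := (FC j (-60 - N) N).card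

/-- Lower counting function. -/
noncomputable def LL (j : ℕ) (N : ℤ) : ℕ := (FC j (-N) (N - 60)).card

lemma dig_ge (j : ℕ) (a b r lo hi lo' hi' : ℤ) (ha : 0 < a)
    (hp : ∀ w, pop (ph j) (a * w + b) = w)
    (h : ∀ w, lo' ≤ w → w ≤ hi' → lo ≤ a * w + b ∧ a * w + b ≤ hi ∧ (a * w + b) % a = r) :
    (FC (j + 1) lo' hi').card ≤ ((FC j lo hi).filter (fun x => x % a = r)).card := by
  refine card_le_card_of_injOn (fun w => a * w + b) ?_ ?_
  · intro w hw
    obtain ⟨h1, h2, h3⟩ := (mem_FC _ _ _ _).mp (mem_coe.mp hw)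
    obtain ⟨h4, h5, h6⟩ := h w h1 h2
    exact mem_coe.mpr (mem_filter.mpr ⟨(mem_FC _ _ _ _).mpr
      ⟨h4, h5, (Cl_iff _ _).mpr (by rw [hp]; exact h3)⟩, h6⟩)
  · intro w _ v _ e
    exact mul_left_cancel₀ ha.ne' (add_right_cancel e)

lemma dig_le (j : ℕ) (a b r lo hi lo' hi' : ℤ)
    (hp : ∀ w, pop (ph j) (a * w + b) = w) (hr : ∀ x, x % a = r → ∃ w, x = a * w + b)
    (h : ∀ w, lo ≤ a * w + b → a * w + b ≤ hi → lo' ≤ w ∧ w ≤ hi') :
    ((FC j lo hi).filter (fun x => x % a = r)).card ≤ (FC (j + 1) lo' hi').card := by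
  refine le_trans (card_le_card ?_) (card_image_le (f := fun w => a * w + b))
  intro x hx
  obtain ⟨hx1, hx2⟩ := mem_filter.mp hx
  obtain ⟨w, rfl⟩ := hr x hx2
  obtain ⟨h1, h2, h3⟩ := (mem_FC _ _ _ _).mp hx1
  obtain ⟨h4, h5⟩ := h w h1 h2
  exact mem_image.mpr ⟨w, (mem_FC _ _ _ _).mpr
    ⟨h4, h5, by have := (Cl_iff _ _).mp h3; rwa [hp] at this⟩, rfl⟩

lemma split0 (F : Finset ℤ) :
    (F.filter (fun x => x % 16 = 0)).card +
      (F.filter (fun x => x % 16 = 12)).card +
      (F.filter (fun x => x % 2 = 1)).card +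
      (F.filter (fun x => x % 4 = 2)).card +
      (F.filter (fun x => x % 16 = 8)).card +
      (F.filter (fun x => x % 16 = 4)).card = F.card := by
  simp only [card_filter, ← sum_add_distrib]
  rw [card_eq_sum_ones]
  refine sum_congr rfl fun x _ => ?_
  obtain ⟨w, h⟩ := form0 x
  rcases h with rfl | rfl | rfl | rfl | rfl | rfl
  all_goals
    repeat (first | rw [if_neg (by omega)] | rw [if_pos (by omega)])

lemma split1 (F : Finset ℤ) :
    (F.filter (fun x => x % 16 = 0)).card +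
      (F.filter (fun x => x % 16 = 12)).card +
      (F.filter (fun x => x % 16 = 8)).card +
      (F.filter (fun x => x % 4 = 1)).card +
      (F.filter (fun x => x % 8 = 2)).card +
      (F.filter (fun x => x % 4 = 3)).card +
      (F.filter (fun x => x % 8 = 6)).card +
      (F.filter (fun x => x % 16 = 4)).card = F.card := by
  simp only [card_filter, ← sum_add_distrib]
  rw [card_eq_sum_ones]
  refine sum_congr rfl fun x _ => ?_
  obtain ⟨w, h⟩ := form1 x
  rcases h with rfl | rfl | rfl | rfl | rfl | rfl | rfl | rfl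
  all_goals
    repeat (first | rw [if_neg (by omega)] | rw [if_pos (by omega)])

lemma stepU (j : ℕ) (T : ℤ) (h1 : 1000 * (UU (j + 1) T : ℤ) ≤ 53 * T)
    (h2 : 1000 * (UU (j + 1) (2 * T) : ℤ) ≤ 53 * (2 * T))
    (h4 : 1000 * (UU (j + 1) (4 * T) : ℤ) ≤ 53 * (4 * T))
    (h8 : 1000 * (UU (j + 1) (8 * T) : ℤ) ≤ 53 * (8 * T)) :
    1000 * (UU j (16 * T) : ℤ) ≤ 53 * (16 * T) := by
  unfold UU at *
  cases hp : ph j
  · have e := split0 (FC j (-60 - 16 * T) (16 * T))
    have d0 := dig_le j 16 0 0 (-60 - 16 * T) (16 * T) (-60 - T) T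
      (fun w => by rw [hp, add_zero]; exact pop00 w)
      (fun x hx => ⟨(x - 0) / 16, by omega⟩) (fun w _ _ => by omega)
    have d1 := dig_le j 16 60 12 (-60 - 16 * T) (16 * T) (-60 - T) T
      (fun w => by rw [hp]; exact pop01 w)
      (fun x hx => ⟨(x - 60) / 16, by omega⟩) (fun w _ _ => by omega)
    have d2 := dig_le j 2 15 1 (-60 - 16 * T) (16 * T) (-60 - (8 * T)) (8 * T)
      (fun w => by rw [hp]; exact pop02 w)
      (fun x hx => ⟨(x - 15) / 2, by omega⟩) (fun w _ _ => by omega)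
    have d3 := dig_le j 4 150 2 (-60 - 16 * T) (16 * T) (-60 - (4 * T)) (4 * T)
      (fun w => by rw [hp]; exact pop03 w)
      (fun x hx => ⟨(x - 150) / 4, by omega⟩) (fun w _ _ => by omega)
    have d4 := dig_le j 16 840 8 (-60 - 16 * T) (16 * T) (-60 - T) T
      (fun w => by rw [hp]; exact pop04 w)
      (fun x hx => ⟨(x - 840) / 16, by omega⟩) (fun w _ _ => by omega)
    have d5 := dig_le j 16 900 4 (-60 - 16 * T) (16 * T) (-60 - T) T
      (fun w => by rw [hp]; exact pop05 w)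
      (fun x hx => ⟨(x - 900) / 16, by omega⟩) (fun w _ _ => by omega)
    omega
  · have e := split1 (FC j (-60 - 16 * T) (16 * T))
    have d0 := dig_le j 16 0 0 (-60 - 16 * T) (16 * T) (-60 - T) T
      (fun w => by rw [hp, add_zero]; exact pop10 w)
      (fun x hx => ⟨(x - 0) / 16, by omega⟩) (fun w _ _ => by omega)
    have d1 := dig_le j 16 60 12 (-60 - 16 * T) (16 * T) (-60 - T) T
      (fun w => by rw [hp]; exact pop11 w)
      (fun x hx => ⟨(x - 60) / 16, by omega⟩) (fun w _ _ => by omega)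
    have d2 := dig_le j 16 120 8 (-60 - 16 * T) (16 * T) (-60 - T) T
      (fun w => by rw [hp]; exact pop12 w)
      (fun x hx => ⟨(x - 120) / 16, by omega⟩) (fun w _ _ => by omega)
    have d3 := dig_le j 4 45 1 (-60 - 16 * T) (16 * T) (-60 - (4 * T)) (4 * T)
      (fun w => by rw [hp]; exact pop13 w)
      (fun x hx => ⟨(x - 45) / 4, by omega⟩) (fun w _ _ => by omega)
    have d4 := dig_le j 8 210 2 (-60 - 16 * T) (16 * T) (-60 - (2 * T)) (2 * T)
      (fun w => by rw [hp]; exact pop14 w)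
      (fun x hx => ⟨(x - 210) / 8, by omega⟩) (fun w _ _ => by omega)
    have d5 := dig_le j 4 135 3 (-60 - 16 * T) (16 * T) (-60 - (4 * T)) (4 * T)
      (fun w => by rw [hp]; exact pop15 w)
      (fun x hx => ⟨(x - 135) / 4, by omega⟩) (fun w _ _ => by omega)
    have d6 := dig_le j 8 390 6 (-60 - 16 * T) (16 * T) (-60 - (2 * T)) (2 * T)
      (fun w => by rw [hp]; exact pop16 w)
      (fun x hx => ⟨(x - 390) / 8, by omega⟩) (fun w _ _ => by omega)
    have d7 := dig_le j 16 900 4 (-60 - 16 * T) (16 * T) (-60 - T) T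
      (fun w => by rw [hp]; exact pop17 w)
      (fun x hx => ⟨(x - 900) / 16, by omega⟩) (fun w _ _ => by omega)
    omega

lemma stepL (j : ℕ) (T : ℤ) (h1 : 60 * T ≤ 1000 * (LL (j + 1) T : ℤ))
    (h2 : 60 * (2 * T) ≤ 1000 * (LL (j + 1) (2 * T) : ℤ))
    (h4 : 60 * (4 * T) ≤ 1000 * (LL (j + 1) (4 * T) : ℤ))
    (h8 : 60 * (8 * T) ≤ 1000 * (LL (j + 1) (8 * T) : ℤ)) :
    60 * (16 * T) ≤ 1000 * (LL j (16 * T) : ℤ) := by
  unfold LL at *
  cases hp : ph j
  · have e := split0 (FC j (-(16 * T)) (16 * T - 60))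
    have d0 := dig_ge j 16 0 0 (-(16 * T)) (16 * T - 60) (-T) (T - 60) (by norm_num)
      (fun w => by rw [hp, add_zero]; exact pop00 w)
      (fun w _ _ => by omega)
    have d1 := dig_ge j 16 60 12 (-(16 * T)) (16 * T - 60) (-T) (T - 60) (by norm_num)
      (fun w => by rw [hp]; exact pop01 w)
      (fun w _ _ => by omega)
    have d2 := dig_ge j 2 15 1 (-(16 * T)) (16 * T - 60) (-(8 * T)) ((8 * T) - 60) (by norm_num)
      (fun w => by rw [hp]; exact pop02 w)
      (fun w _ _ => by omega)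
    have d3 := dig_ge j 4 150 2 (-(16 * T)) (16 * T - 60) (-(4 * T)) ((4 * T) - 60) (by norm_num)
      (fun w => by rw [hp]; exact pop03 w)
      (fun w _ _ => by omega)
    have d4 := dig_ge j 16 840 8 (-(16 * T)) (16 * T - 60) (-T) (T - 60) (by norm_num)
      (fun w => by rw [hp]; exact pop04 w)
      (fun w _ _ => by omega)
    have d5 := dig_ge j 16 900 4 (-(16 * T)) (16 * T - 60) (-T) (T - 60) (by norm_num)
      (fun w => by rw [hp]; exact pop05 w)
      (fun w _ _ => by omega)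
    omega
  · have e := split1 (FC j (-(16 * T)) (16 * T - 60))
    have d0 := dig_ge j 16 0 0 (-(16 * T)) (16 * T - 60) (-T) (T - 60) (by norm_num)
      (fun w => by rw [hp, add_zero]; exact pop10 w)
      (fun w _ _ => by omega)
    have d1 := dig_ge j 16 60 12 (-(16 * T)) (16 * T - 60) (-T) (T - 60) (by norm_num)
      (fun w => by rw [hp]; exact pop11 w)
      (fun w _ _ => by omega)
    have d2 := dig_ge j 16 120 8 (-(16 * T)) (16 * T - 60) (-T) (T - 60) (by norm_num)
      (fun w => by rw [hp]; exact pop12 w)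
      (fun w _ _ => by omega)
    have d3 := dig_ge j 4 45 1 (-(16 * T)) (16 * T - 60) (-(4 * T)) ((4 * T) - 60) (by norm_num)
      (fun w => by rw [hp]; exact pop13 w)
      (fun w _ _ => by omega)
    have d4 := dig_ge j 8 210 2 (-(16 * T)) (16 * T - 60) (-(2 * T)) ((2 * T) - 60) (by norm_num)
      (fun w => by rw [hp]; exact pop14 w)
      (fun w _ _ => by omega)
    have d5 := dig_ge j 4 135 3 (-(16 * T)) (16 * T - 60) (-(4 * T)) ((4 * T) - 60) (by norm_num)
      (fun w => by rw [hp]; exact pop15 w)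
      (fun w _ _ => by omega)
    have d6 := dig_ge j 8 390 6 (-(16 * T)) (16 * T - 60) (-(2 * T)) ((2 * T) - 60) (by norm_num)
      (fun w => by rw [hp]; exact pop16 w)
      (fun w _ _ => by omega)
    have d7 := dig_ge j 16 900 4 (-(16 * T)) (16 * T - 60) (-T) (T - 60) (by norm_num)
      (fun w => by rw [hp]; exact pop17 w)
      (fun w _ _ => by omega)
    omega

lemma popIter_const (p : Bool) (n : ℕ) : ∀ (j : ℕ) (w : ℤ), (∀ i, i < n → ph (j + i) = p) →
    popIter n j w = (pop p)^[n] w := by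
  induction n with
  | zero => intro j w _; rfl
  | succ n ih =>
    intro j w h
    have h0 : ph j = p := h 0 (by omega)
    rw [Function.iterate_succ_apply, ← ih (j + 1) _ (fun i hi => by
      rw [show j + 1 + i = j + (i + 1) by ring]; exact h _ (by omega)), ← h0]
    rfl

lemma Cl_popIter (n : ℕ) : ∀ (j : ℕ) (w : ℤ), Cl j w → Cl (j + n) (popIter n j w) := by
  induction n with
  | zero => intro j w h; exact h
  | succ n ih =>
    intro j w h
    have := ih (j + 1) _ ((Cl_iff _ _).mp h)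
    rwa [show j + 1 + n = j + (n + 1) by ring] at this

lemma trap_pop (p : Bool) (w : ℤ) (h1 : -60 ≤ w) (h2 : w ≤ 0) (h3 : w ≠ -4) :
    -60 ≤ pop p w ∧ pop p w ≤ 0 ∧ pop p w ≠ -4 := by
  cases p <;> interval_cases w <;> first | decide | exact absurd rfl h3

lemma trap (j : ℕ) (w : ℤ) (h : Cl j w) (h1 : -60 ≤ w) (h2 : w ≤ 0) : w = -4 := by
  obtain ⟨n, hn⟩ := h
  induction n generalizing j w with
  | zero => exact hn
  | succ n ih =>
    by_contra h3
    obtain ⟨a, b, c⟩ := trap_pop (ph j) w h1 h2 h3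
    exact c (ih _ _ a b hn)

/-- The maps `pop`, shifted by 4096 and computed on natural numbers. -/
def popN : Bool → ℕ → ℕ
  | false, y => bif Nat.beq (y % 2) 1 then (y + 4081) / 2
      else bif Nat.beq (y % 4) 2 then (y + 12138) / 4
      else bif Nat.beq (y % 16) 0 then (y + 61440) / 16
      else bif Nat.beq (y % 16) 12 then (y + 61380) / 16
      else bif Nat.beq (y % 16) 8 then (y + 60600) / 16 else (y + 60540) / 16
  | true, y => bif Nat.beq (y % 4) 1 then (y + 12243) / 4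
      else bif Nat.beq (y % 4) 3 then (y + 12153) / 4
      else bif Nat.beq (y % 8) 2 then (y + 28462) / 8
      else bif Nat.beq (y % 8) 6 then (y + 28282) / 8
      else bif Nat.beq (y % 16) 0 then (y + 61440) / 16
      else bif Nat.beq (y % 16) 12 then (y + 61380) / 16
      else bif Nat.beq (y % 16) 8 then (y + 61320) / 16 else (y + 60540) / 16

lemma popN_eq (p : Bool) (y : ℕ) : pop p ((y : ℤ) - 4096) = (popN p y : ℤ) - 4096 := by
  have h : y % 16 = 0 ∨ y % 16 = 4 ∨ y % 16 = 8 ∨ y % 16 = 12 ∨ y % 8 = 2 ∨ y % 8 = 6 ∨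
      y % 4 = 1 ∨ y % 4 = 3 := by omega
  cases p
  all_goals
    simp only [pop, popN, Bool.cond_eq_ite, Nat.beq_eq]
    rcases h with h | h | h | h | h | h | h | h
    all_goals
      repeat (first | rw [if_neg (by omega)] | rw [if_pos (by omega)])
      all_goals omega

/-- Iterates of `popN`. -/
def itN (p : Bool) (n : ℕ) : ℕ → ℕ := Nat.rec (fun y => y) (fun _ ih y => ih (popN p y)) n

lemma itN_eq (p : Bool) (n : ℕ) : ∀ y : ℕ,
    (pop p)^[n] ((y : ℤ) - 4096) = (itN p n y : ℤ) - 4096 := by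
  induction n with
  | zero => intro y; rfl
  | succ n ih => intro y; rw [Function.iterate_succ_apply, popN_eq, ih]; rfl

lemma card_bridge (P : ℤ → Prop) [DecidablePred P] (Q : ℕ → Bool) (a n : ℕ) (lo hi : ℤ)
    (hlo : lo = (a : ℤ) - 4096) (hhi : hi + 1 = lo + n)
    (h : ∀ y : ℕ, P ((y : ℤ) - 4096) ↔ Q y = true) :
    ((Icc lo hi).filter P).card = sumLt n (fun i => bif Q (a + i) then 1 else 0) := by
  rw [sumLt_eq]
  simp only [Bool.cond_eq_ite]
  rw [← card_filter]
  symm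
  refine card_bij (fun i _ => ((a + i : ℕ) : ℤ) - 4096) ?_ ?_ ?_
  · intro i hi
    obtain ⟨h1, h2⟩ := mem_filter.mp hi
    have := mem_range.mp h1
    exact mem_filter.mpr ⟨mem_Icc.mpr ⟨by omega, by omega⟩, (h _).mpr h2⟩
  · intro i _ j _ e
    omega
  · intro x hx
    obtain ⟨h1, h2⟩ := mem_filter.mp hx
    obtain ⟨h3, h4⟩ := mem_Icc.mp h1
    have e : ((a + (x - lo).toNat : ℕ) : ℤ) - 4096 = x := by omega
    exact ⟨(x - lo).toNat, mem_filter.mpr ⟨mem_range.mpr (by omega), (h _).mp (e.symm ▸ h2)⟩, e⟩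

/-- Test used for the upper count. -/
def QU (y : ℕ) : Bool :=
  (fun v => Nat.beq v 4092 || Nat.blt v 4036 || Nat.blt 4096 v) (itN true 10 y)

/-- Test used for the lower count. -/
def QL (y : ℕ) : Bool := Nat.beq (itN false 10 y) 4092

lemma baseU (j : ℕ) (hp : ∀ i, i < 10 → ph (j + i) = true) (K : ℕ) (h1 : 8 ≤ K) (h2 : K ≤ 11) :
    1000 * (UU j (2 ^ K) : ℤ) ≤ 53 * 2 ^ K := by
  have key : ∀ (N : ℤ) (a n : ℕ), -60 - N = (a : ℤ) - 4096 → N + 1 = -60 - N + n →
      UU j N ≤ sumLt n (fun i => bif QU (a + i) then 1 else 0) := by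
    intro N a n ha hn
    rw [← card_bridge (fun x => (pop true)^[10] x = -4 ∨
      (pop true)^[10] x < -60 ∨ 0 < (pop true)^[10] x) QU a n _ _ ha hn (fun y => by
        rw [itN_eq]
        simp only [QU, Bool.or_eq_true, Nat.beq_eq, Nat.blt_eq]
        omega)]
    refine card_le_card fun x hx => ?_
    obtain ⟨a, b, c⟩ := (mem_FC _ _ _ _).mp hx
    refine mem_filter.mpr ⟨mem_Icc.mpr ⟨a, b⟩, ?_⟩
    have h3 := Cl_popIter 10 j x c
    rw [popIter_const true 10 j x hp] at h3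
    by_contra h4
    push Not at h4
    exact h4.1 (trap _ _ h3 h4.2.1 h4.2.2)
  interval_cases K
  · have := (key (2 ^ 8) 3780 573 (by norm_num) (by norm_num)).trans
      (show _ ≤ 13 by decide +kernel)
    omega
  · have := (key (2 ^ 9) 3524 1085 (by norm_num) (by norm_num)).trans
      (show _ ≤ 24 by decide +kernel)
    omega
  · have := (key (2 ^ 10) 3012 2109 (by norm_num) (by norm_num)).trans
      (show _ ≤ 54 by decide +kernel)
    omega
  · have := (key (2 ^ 11) 1988 4157 (by norm_num) (by norm_num)).trans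
      (show _ ≤ 102 by decide +kernel)
    omega

lemma baseL (j : ℕ) (hp : ∀ i, i < 10 → ph (j + i) = false) (K : ℕ) (h1 : 8 ≤ K) (h2 : K ≤ 11) :
    60 * 2 ^ K ≤ 1000 * (LL j (2 ^ K) : ℤ) := by
  have key : ∀ (N : ℤ) (a n : ℕ), -N = (a : ℤ) - 4096 → N - 60 + 1 = -N + n →
      sumLt n (fun i => bif QL (a + i) then 1 else 0) ≤ LL j N := by
    intro N a n ha hn
    rw [← card_bridge (fun x => (pop false)^[10] x = -4) QL a n _ _ ha hn (fun y => by
        rw [itN_eq]
        simp only [QL, Nat.beq_eq]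
        omega)]
    refine card_le_card fun x hx => ?_
    obtain ⟨a, b⟩ := mem_filter.mp hx
    obtain ⟨a1, a2⟩ := mem_Icc.mp a
    exact (mem_FC _ _ _ _).mpr ⟨a1, a2, 10, by rw [popIter_const false 10 j x hp]; exact b⟩
  interval_cases K
  · have := (show 17 ≤ _ by decide +kernel).trans
      (key (2 ^ 8) 3840 453 (by norm_num) (by norm_num))
    omega
  · have := (show 31 ≤ _ by decide +kernel).trans
      (key (2 ^ 9) 3584 965 (by norm_num) (by norm_num))
    omega
  · have := (show 67 ≤ _ by decide +kernel).trans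
      (key (2 ^ 10) 3072 1989 (by norm_num) (by norm_num))
    omega
  · have := (show 132 ≤ _ by decide +kernel).trans
      (key (2 ^ 11) 2048 4037 (by norm_num) (by norm_num))
    omega

lemma main_ind (Q : ℕ → ℕ → Prop)
    (step : ∀ j K, Q (j + 1) K → Q (j + 1) (K + 1) → Q (j + 1) (K + 2) → Q (j + 1) (K + 3) →
      Q j (K + 4)) (s m : ℕ)
    (base : ∀ i, s ≤ i → i ≤ s + m → ∀ K, 8 ≤ K → K ≤ 11 → Q i K) (hm : 3 * s ≤ m + 3) :
    Q 0 (8 + 4 * s) := by
  have key : ∀ d i, i + d = s + m → ∀ K, 8 + 4 * (s - i) ≤ K → K ≤ 11 + d → Q i K := by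
    intro d
    induction d with
    | zero => intro i hi K h1 h2; exact base i (by omega) (by omega) K (by omega) (by omega)
    | succ d ih =>
      intro i hi K h1 h2
      by_cases h : s ≤ i ∧ K ≤ 11
      · exact base i h.1 (by omega) K (by omega) h.2
      · obtain ⟨K', rfl⟩ : ∃ K', K = K' + 4 := ⟨K - 4, by omega⟩
        exact step i K' (ih _ (by omega) _ (by omega) (by omega))
          (ih _ (by omega) _ (by omega) (by omega)) (ih _ (by omega) _ (by omega) (by omega))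
          (ih _ (by omega) _ (by omega) (by omega))
  exact key (s + m) 0 (by omega) _ (by omega) (by omega)

lemma run0 (s B C : ℕ) (h : ck s = (false, B, C)) (i : ℕ) (hi : i ≤ B) :
    ck (s + i) = (false, B - i, C + 5 * i) := by
  induction i with
  | zero => simpa using h
  | succ i ih =>
    have e : ck (s + (i + 1)) = cstep (ck (s + i)) := rfl
    rw [e, ih (by omega), show B - i = (B - (i + 1)) + 1 by omega]
    simp only [cstep, Prod.mk.injEq, true_and]
    omega

lemma run1 (s B C : ℕ) (h : ck s = (true, B, C)) (i : ℕ) (hi : i ≤ C) :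
    ck (s + i) = (true, B + 5 * i, C - i) := by
  induction i with
  | zero => simpa using h
  | succ i ih =>
    have e : ck (s + (i + 1)) = cstep (ck (s + i)) := rfl
    rw [e, ih (by omega), show C - i = (C - (i + 1)) + 1 by omega]
    simp only [cstep, Prod.mk.injEq, true_and, and_true]
    omega

lemma turn0 (s B : ℕ) (h : ck s = (false, B, 0)) : ck (s + B + 1) = (true, 0, 5 * B + 1) := by
  have e : ck (s + B + 1) = cstep (ck (s + B)) := rfl
  rw [e, run0 s B 0 h B le_rfl, Nat.sub_self, zero_add]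
  rfl

lemma blocks (k : ℕ) : ∃ s B, ck s = (false, B, 0) ∧ 3 * s + 30 ≤ B ∧ k + 1 ≤ s := by
  induction k with
  | zero => exact ⟨42, 156, by decide +kernel, by norm_num, by norm_num⟩
  | succ k ih =>
    obtain ⟨s, B, h, h1, h2⟩ := ih
    refine ⟨s + B + 1 + (5 * B + 1) + 1, 5 * (5 * B + 1) + 1, ?_, by omega, by omega⟩
    have e : ck (s + B + 1 + (5 * B + 1) + 1) = cstep (ck (s + B + 1 + (5 * B + 1))) := rfl
    rw [e, run1 _ _ _ (turn0 s B h) _ le_rfl, Nat.sub_self, zero_add]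
    rfl

lemma freqL (k : ℕ) : ∃ s, k + 1 ≤ s ∧
    60 * 2 ^ (8 + 4 * s) ≤ 1000 * (LL 0 (2 ^ (8 + 4 * s)) : ℤ) := by
  obtain ⟨s, B, h, h1, h2⟩ := blocks k
  refine ⟨s, h2, main_ind (fun j K => 60 * 2 ^ K ≤ 1000 * (LL j (2 ^ K) : ℤ)) ?_ s (B - 9) ?_
    (by omega)⟩
  · intro j K a b c d
    rw [show (2 : ℤ) ^ (K + 1) = 2 * 2 ^ K by ring] at b
    rw [show (2 : ℤ) ^ (K + 2) = 4 * 2 ^ K by ring] at c
    rw [show (2 : ℤ) ^ (K + 3) = 8 * 2 ^ K by ring] at d
    rw [show (2 : ℤ) ^ (K + 4) = 16 * 2 ^ K by ring]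
    exact stepL j _ a b c d
  · intro i a b K c d
    refine baseL i (fun l hl => ?_) K c d
    unfold ph
    rw [show i + l = s + (i + l - s) by omega, run0 s B 0 h _ (by omega)]

lemma freqU (k : ℕ) : ∃ s, k + 1 ≤ s ∧
    1000 * (UU 0 (2 ^ (8 + 4 * s)) : ℤ) ≤ 53 * 2 ^ (8 + 4 * s) := by
  obtain ⟨s, B, h, h1, h2⟩ := blocks k
  refine ⟨s + B + 1, by omega, main_ind (fun j K => 1000 * (UU j (2 ^ K) : ℤ) ≤ 53 * 2 ^ K) ?_
    (s + B + 1) (5 * B - 8) ?_ (by omega)⟩
  · intro j K a b c d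
    rw [show (2 : ℤ) ^ (K + 1) = 2 * 2 ^ K by ring] at b
    rw [show (2 : ℤ) ^ (K + 2) = 4 * 2 ^ K by ring] at c
    rw [show (2 : ℤ) ^ (K + 3) = 8 * 2 ^ K by ring] at d
    rw [show (2 : ℤ) ^ (K + 4) = 16 * 2 ^ K by ring]
    exact stepU j _ a b c d
  · intro i a b K c d
    refine baseU i (fun l hl => ?_) K c d
    unfold ph
    rw [show i + l = s + B + 1 + (i + l - (s + B + 1)) by omega,
      run1 _ _ _ (turn0 s B h) _ (by omega)]

/-- The part of the orbit of `-8` in `[-N, N]`. -/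
def OS (N : ℤ) : Set ℤ := {k : ℤ | -N ≤ k ∧ k ≤ N ∧ ∃ i : ℕ, g^[i] (-8) = k ∨ g^[i] k = -8}

lemma OS_fin (N : ℤ) : (OS N).Finite :=
  (Set.finite_Icc (-N) N).subset fun _ h => ⟨h.1, h.2.1⟩

lemma OS_ge (N : ℤ) : LL 0 N ≤ (OS (2 * N)).ncard := by
  unfold LL
  rw [← card_image_of_injective (FC 0 (-N) (N - 60)) (mul_right_injective₀ (two_ne_zero' ℤ)),
    ← Set.ncard_coe_finset]
  refine Set.ncard_le_ncard ?_ (OS_fin _)
  intro k hk
  obtain ⟨x, hx, rfl⟩ := mem_image.mp (mem_coe.mp hk)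
  obtain ⟨a, b, c⟩ := (mem_FC _ _ _ _).mp hx
  exact ⟨by omega, by omega, orb_of_Cl x c⟩

lemma OS_le (T : ℕ) : (OS (4096 * T)).ncard ≤ UU 0 (2048 * T) + 4 * (2 * T + 1) := by
  have hI : (Icc (-(T : ℤ)) T).card = 2 * T + 1 := by
    rw [Int.card_Icc]; omega
  have hsub : OS (4096 * T) ⊆ (((FC 0 (-60 - 2048 * T) (2048 * T)).image (fun x => 2 * x) ∪
      ((Icc (-(T : ℤ)) T) ×ˢ (Icc (1 : ℤ) 4)).image (fun p => 4096 * p.1 + (2 * p.2 - 1)) :
        Finset ℤ) : Set ℤ) := by
    rintro k ⟨a, b, c⟩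
    obtain ⟨⟨s, y⟩, hc, rfl⟩ := orb_inv k c
    have hs := Inv_le _ hc
    simp only at hs
    rw [mem_coe, mem_union]
    by_cases h0 : s = 0
    · subst h0
      have e : enc (0, y) = 2 * y := rfl
      rw [e] at a b ⊢
      exact Or.inl (mem_image.mpr ⟨y, (mem_FC _ _ _ _).mpr
        ⟨by omega, by omega, Inv_main y hc⟩, rfl⟩)
    · have e : enc (s, y) = 4096 * y + (2 * s - 1) := by
        simp only [enc]; rw [if_neg h0, if_pos hs]
      rw [e] at a b ⊢
      exact Or.inr (mem_image.mpr ⟨(y, s), mem_product.mpr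
        ⟨mem_Icc.mpr ⟨by simp only; omega, by simp only; omega⟩,
          mem_Icc.mpr ⟨by simp only; omega, by simp only; omega⟩⟩, rfl⟩)
  refine (Set.ncard_le_ncard hsub (finite_toSet _)).trans ?_
  rw [Set.ncard_coe_finset]
  refine (card_union_le _ _).trans (add_le_add card_image_le (card_image_le.trans ?_))
  rw [card_product, hI]
  simp [mul_comm]

end Pool.Agent.Lib.Helper33.Odo
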